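import Mathlib

set_option autoImplicit false

/-!
# A homeomorphism of the plane which marks the edges of the unit grid

The plane is modelled by `ℂ`.
-/

namespace Pool.Agent.V11268.AE

open Set Metric Topology

/-- The quartic profile of the marks. -/
def q (s : ℝ) : ℝ := s ^ 3 * (1 - s)

@[simp] theorem q_zero : q 0 = 0 := by simp [q]
@[simp] theorem q_one : q 1 = 0 := by simp [q]

theorem q_lip {s t : ℝ} (hs0 : 0 ≤ s) (hs1 : s ≤ 1) (ht0 : 0 ≤ t) (ht1 : t ≤ 1) :
    |q s - q t| ≤ |s - t| := by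
  have h : q s - q t = (s - t) * ((1 - s) * (s ^ 2 + s * t + t ^ 2) - t ^ 3) := by
    unfold q; ring
  rw [h, abs_mul]
  refine mul_le_of_le_one_right (abs_nonneg _) ?_
  have h1 : 0 ≤ s ^ 2 + s * t + t ^ 2 := by positivity
  have h2 : s ^ 2 + s * t + t ^ 2 ≤ s ^ 2 + s + 1 := by nlinarith
  have h3 : (1 - s) * (s ^ 2 + s * t + t ^ 2) ≤ (1 - s) * (s ^ 2 + s + 1) :=
    mul_le_mul_of_nonneg_left h2 (by linarith)
  have h4 : (1 - s) * (s ^ 2 + s + 1) = 1 - s ^ 3 := by ring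
  have h5 : 0 ≤ s ^ 3 := by positivity
  have h6 : 0 ≤ t ^ 3 := by positivity
  have h7 : t ^ 3 ≤ 1 := pow_le_one₀ ht0 ht1
  have h8 : 0 ≤ (1 - s) * (s ^ 2 + s * t + t ^ 2) := mul_nonneg (by linarith) h1
  rw [abs_le]
  constructor <;> linarith

/-- A function which is Lipschitz on every interval between consecutive integers is Lipschitz. -/
theorem lip_of_pieces {F : ℝ → ℝ} {C : ℝ} (hC : 0 ≤ C)
    (h : ∀ n : ℤ, ∀ x y : ℝ, n ≤ x → x ≤ n + 1 → n ≤ y → y ≤ n + 1 → |F x - F y| ≤ C * |x - y|) :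
    ∀ x y : ℝ, |F x - F y| ≤ C * |x - y| := by
  have hint : ∀ m n : ℤ, m ≤ n → |F m - F n| ≤ C * ((n : ℝ) - m) := by
    intro m n hmn
    induction n, hmn using Int.leInduction with
    | base => simp
    | succ n hmn ih =>
      have h1 := h n (n : ℝ) ((n : ℝ) + 1) le_rfl (by linarith) (by linarith) le_rfl
      have h2 : |(n : ℝ) - (n + 1)| = 1 := by
        rw [show (n : ℝ) - (n + 1) = -1 by ring]; norm_num
      rw [h2] at h1
      have h3 := abs_sub_le (F m) (F n) (F ((n : ℝ) + 1))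
      push_cast
      calc _ ≤ _ := h3
        _ ≤ C * ((n : ℝ) - m) + C * 1 := add_le_add ih h1
        _ = _ := by ring
  have key : ∀ x y : ℝ, x ≤ y → |F x - F y| ≤ C * (y - x) := by
    intro x y hxy
    by_cases hf : y ≤ ⌊x⌋ + 1
    · have := h ⌊x⌋ x y (Int.floor_le x) (Int.lt_floor_add_one x).le ((Int.floor_le x).trans hxy) hf
      rwa [abs_sub_comm x y, abs_of_nonneg (by linarith : 0 ≤ y - x)] at this
    · push Not at hf
      have hfl : ⌊x⌋ + 1 ≤ ⌊y⌋ := by
        rw [Int.le_floor]; push_cast; exact hf.le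
      have h1 := h ⌊x⌋ x ((⌊x⌋ : ℝ) + 1) (Int.floor_le x) (Int.lt_floor_add_one x).le (by linarith)
        le_rfl
      have h2 := hint (⌊x⌋ + 1) ⌊y⌋ hfl
      have h3 := h ⌊y⌋ (⌊y⌋ : ℝ) y le_rfl (by linarith) (Int.floor_le y) (Int.lt_floor_add_one y).le
      have e1 : |x - ((⌊x⌋ : ℝ) + 1)| = (⌊x⌋ : ℝ) + 1 - x := by
        rw [abs_sub_comm, abs_of_nonneg (by linarith [Int.lt_floor_add_one x])]
      have e3 : |(⌊y⌋ : ℝ) - y| = y - ⌊y⌋ := by
        rw [abs_sub_comm, abs_of_nonneg (by linarith [Int.floor_le y])]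
      rw [e1] at h1
      rw [e3] at h3
      push_cast at h2
      have h4 := abs_sub_le (F x) (F ((⌊x⌋ : ℝ) + 1)) (F y)
      have h5 := abs_sub_le (F ((⌊x⌋ : ℝ) + 1)) (F ⌊y⌋) (F y)
      nlinarith
  intro x y
  rcases le_total x y with hxy | hxy
  · rw [abs_sub_comm x y, abs_of_nonneg (by linarith : 0 ≤ y - x)]
    exact key x y hxy
  · rw [abs_sub_comm (F x), abs_of_nonneg (by linarith : 0 ≤ x - y)]
    exact key y x hxy

/-- The periodic mark. -/
noncomputable def qh (x : ℝ) : ℝ := q (Int.fract x)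

theorem fract_cases {n : ℤ} {x : ℝ} (h1 : n ≤ x) (h2 : x ≤ n + 1) :
    (⌊x⌋ = n ∧ Int.fract x = x - n) ∨ (x = n + 1 ∧ ⌊x⌋ = n + 1 ∧ Int.fract x = 0) := by
  rcases h2.eq_or_lt with h | h
  · right
    refine ⟨h, ?_, ?_⟩
    · rw [h]
      have : ((n : ℝ) + 1) = ((n + 1 : ℤ) : ℝ) := by push_cast; ring
      rw [this, Int.floor_intCast]
    · rw [h]
      have : ((n : ℝ) + 1) = ((n + 1 : ℤ) : ℝ) := by push_cast; ring
      rw [this, Int.fract_intCast]
  · left
    have : ⌊x⌋ = n := Int.floor_eq_iff.2 ⟨h1, h⟩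
    exact ⟨this, by rw [Int.fract, this]⟩

theorem qh_eq {n : ℤ} {x : ℝ} (h1 : n ≤ x) (h2 : x ≤ n + 1) : qh x = q (x - n) := by
  rcases fract_cases h1 h2 with ⟨-, h⟩ | ⟨h, -, h'⟩
  · rw [qh, h]
  · rw [qh, h', h]
    rw [add_sub_cancel_left]
    simp

theorem qh_lip (x y : ℝ) : |qh x - qh y| ≤ |x - y| := by
  have := lip_of_pieces (F := qh) (C := 1) zero_le_one (by
    intro n x y h1 h2 h3 h4
    rw [qh_eq h1 h2, qh_eq h3 h4, one_mul]
    have := q_lip (s := x - n) (t := y - n) (by linarith) (by linarith) (by linarith) (by linarith)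
    rwa [sub_sub_sub_cancel_right] at this) x y
  rwa [one_mul] at this

theorem qh_abs (x : ℝ) : |qh x| ≤ 1 := by
  have h0 := Int.fract_nonneg x
  have h1 := (Int.fract_lt_one x).le
  have := q_lip h0 h1 le_rfl zero_le_one
  rw [q_zero, sub_zero, sub_zero, abs_of_nonneg h0] at this
  exact this.trans h1

@[simp] theorem qh_int (n : ℤ) : qh n = 0 := by
  rw [qh, Int.fract_intCast, q_zero]

theorem qh_add_int (x : ℝ) (n : ℤ) : qh (x + n) = qh x := by
  rw [qh, Int.fract_add_intCast, qh]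

/-- The size of the marks of the vertical edges. -/
noncomputable def rr (n : ℤ) : ℝ := if n % 3 = 0 then 1 / 20 else if n % 3 = 1 then 1 / 10 else 0

/-- The size of the marks of the horizontal edges. -/
noncomputable def cc (n : ℤ) : ℝ := if n % 3 = 0 then 3 / 20 else if n % 3 = 2 then 1 / 5 else 0

/-- The horizontal displacement. -/
noncomputable def sh (y : ℝ) : ℝ := rr ⌊y⌋ * q (Int.fract y)

/-- The size of the vertical displacement. -/
noncomputable def ch (y : ℝ) : ℝ := cc ⌊y⌋ + Int.fract y * (cc (⌊y⌋ + 1) - cc ⌊y⌋)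

theorem sh_eq {n : ℤ} {y : ℝ} (h1 : n ≤ y) (h2 : y ≤ n + 1) : sh y = rr n * q (y - n) := by
  rcases fract_cases h1 h2 with ⟨h, h'⟩ | ⟨h, -, h'⟩
  · rw [sh, h, h']
  · rw [sh, h', h, add_sub_cancel_left]
    simp

theorem ch_eq {n : ℤ} {y : ℝ} (h1 : n ≤ y) (h2 : y ≤ n + 1) :
    ch y = cc n + (y - n) * (cc (n + 1) - cc n) := by
  rcases fract_cases h1 h2 with ⟨h, h'⟩ | ⟨h, h'', h'⟩
  · rw [ch, h, h']
  · rw [ch, h', h'', h, add_sub_cancel_left]
    ring

theorem rr_bound (n : ℤ) : 0 ≤ rr n ∧ rr n ≤ 1 / 10 := by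
  unfold rr
  split_ifs <;> norm_num

theorem cc_bound (n : ℤ) : 0 ≤ cc n ∧ cc n ≤ 1 / 5 := by
  unfold cc
  split_ifs <;> norm_num

theorem sh_lip (x y : ℝ) : |sh x - sh y| ≤ 1 / 10 * |x - y| := by
  refine lip_of_pieces (F := sh) (C := 1 / 10) (by norm_num) ?_ x y
  intro n x y h1 h2 h3 h4
  rw [sh_eq h1 h2, sh_eq h3 h4, ← mul_sub, abs_mul, abs_of_nonneg (rr_bound n).1]
  have := q_lip (s := x - n) (t := y - n) (by linarith) (by linarith) (by linarith) (by linarith)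
  rw [sub_sub_sub_cancel_right] at this
  exact mul_le_mul (rr_bound n).2 this (abs_nonneg _) (by norm_num)

theorem ch_lip (x y : ℝ) : |ch x - ch y| ≤ 1 / 5 * |x - y| := by
  refine lip_of_pieces (F := ch) (C := 1 / 5) (by norm_num) ?_ x y
  intro n x y h1 h2 h3 h4
  rw [ch_eq h1 h2, ch_eq h3 h4]
  have : cc n + (x - n) * (cc (n + 1) - cc n) - (cc n + (y - n) * (cc (n + 1) - cc n)) =
    (cc (n + 1) - cc n) * (x - y) := by ring
  rw [this, abs_mul]
  refine mul_le_mul_of_nonneg_right ?_ (abs_nonneg _)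
  have h5 := cc_bound n
  have h6 := cc_bound (n + 1)
  rw [abs_le]
  constructor <;> linarith

theorem ch_abs (y : ℝ) : |ch y| ≤ 1 / 5 := by
  have h := ch_eq (Int.floor_le y) (Int.lt_floor_add_one y).le
  have h0 := Int.fract_nonneg y
  have h1 := (Int.fract_lt_one y).le
  have h5 := cc_bound ⌊y⌋
  have h6 := cc_bound (⌊y⌋ + 1)
  rw [ch, abs_le]
  constructor
  · nlinarith
  · nlinarith

@[simp] theorem sh_int (n : ℤ) : sh n = 0 := by
  rw [sh, Int.fract_intCast, q_zero, mul_zero]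

@[simp] theorem ch_int (n : ℤ) : ch n = cc n := by
  rw [ch, Int.fract_intCast, zero_mul, add_zero, Int.floor_intCast]

theorem sh_add (y : ℝ) (n : ℤ) : sh (y + ((3 * n : ℤ) : ℝ)) = sh y := by
  rw [sh, Int.fract_add_intCast, Int.floor_add_intCast, sh]
  congr 1
  unfold rr
  rw [Int.add_mul_emod_self_left]

theorem ch_add (y : ℝ) (n : ℤ) : ch (y + ((3 * n : ℤ) : ℝ)) = ch y := by
  have h : ∀ k : ℤ, cc (k + 3 * n) = cc k := by
    intro k; unfold cc; rw [Int.add_mul_emod_self_left]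
  rw [ch, Int.fract_add_intCast, Int.floor_add_intCast, ch, h,
    show ⌊y⌋ + 3 * n + 1 = (⌊y⌋ + 1) + 3 * n by ring, h]

/-- The displacement. -/
noncomputable def ww (z : ℂ) : ℂ := ⟨sh z.im, ch z.im * qh z.re⟩

theorem ww_lip (z z' : ℂ) : ‖ww z - ww z'‖ ≤ 1 / 2 * ‖z - z'‖ := by
  have h1 := Complex.norm_le_abs_re_add_abs_im (ww z - ww z')
  have h2 := Complex.abs_re_le_norm (z - z')
  have h3 := Complex.abs_im_le_norm (z - z')
  rw [Complex.sub_re] at h1 h2
  rw [Complex.sub_im] at h1 h3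
  have h4 := sh_lip z.im z'.im
  have h5 : |ch z.im * qh z.re - ch z'.im * qh z'.re| ≤
      1 / 5 * |z.re - z'.re| + 1 / 5 * |z.im - z'.im| := by
    have : ch z.im * qh z.re - ch z'.im * qh z'.re =
      ch z.im * (qh z.re - qh z'.re) + (ch z.im - ch z'.im) * qh z'.re := by ring
    rw [this]
    refine (abs_add_le _ _).trans ?_
    rw [abs_mul, abs_mul]
    have a1 := mul_le_mul (ch_abs z.im) (qh_lip z.re z'.re) (abs_nonneg _) (by norm_num)
    have a2 := mul_le_mul (ch_lip z.im z'.im) (qh_abs z'.re) (abs_nonneg _) (by positivity)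
    linarith
  change ‖ww z - ww z'‖ ≤ |sh z.im - sh z'.im| + |ch z.im * qh z.re - ch z'.im * qh z'.re| at h1
  linarith

/-- The homeomorphism of the plane which moves the grid to the marked grid. -/
noncomputable def Phi : ℂ ≃ₜ ℂ :=
  ApproximatesLinearOn.toHomeomorph (𝕜 := ℝ) (f' := ContinuousLinearEquiv.refl ℝ ℂ) (c := 1 / 2)
    (fun z => z + ww z)
    (by
      intro z _ z' _
      have : z + ww z - (z' + ww z') - ((ContinuousLinearEquiv.refl ℝ ℂ : ℂ ≃L[ℝ] ℂ) : ℂ →L[ℝ] ℂ) (z - z')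
          = ww z - ww z' := by
        simp
        ring
      rw [this]
      have := ww_lip z z'
      simpa using this)
    (by
      right
      have : ‖(((ContinuousLinearEquiv.refl ℝ ℂ).symm : ℂ ≃L[ℝ] ℂ) : ℂ →L[ℝ] ℂ)‖₊ = 1 := by
        have : (((ContinuousLinearEquiv.refl ℝ ℂ).symm : ℂ ≃L[ℝ] ℂ) : ℂ →L[ℝ] ℂ) =
          ContinuousLinearMap.id ℝ ℂ := by ext; simp
        rw [this]
        ext
        simp
      rw [this]
      norm_num)

theorem Phi_apply (z : ℂ) : Phi z = z + ww z := rfl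

theorem Phi_re (z : ℂ) : (Phi z).re = z.re + sh z.im := rfl

theorem Phi_im (z : ℂ) : (Phi z).im = z.im + ch z.im * qh z.re := rfl

/-- The integer vector `(a, b)`. -/
noncomputable def vec (a b : ℤ) : ℂ := ⟨a, b⟩

@[simp] theorem vec_re (a b : ℤ) : (vec a b).re = a := rfl
@[simp] theorem vec_im (a b : ℤ) : (vec a b).im = b := rfl

theorem Phi_add (z : ℂ) (a b : ℤ) : Phi (z + vec a (3 * b)) = Phi z + vec a (3 * b) := by
  apply Complex.ext
  · rw [Phi_re, Complex.add_re, Complex.add_re, Complex.add_im, vec_im, sh_add, Phi_re]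
    ring
  · rw [Phi_im, Complex.add_re, Complex.add_im, Complex.add_im, vec_im, vec_re, ch_add, qh_add_int,
      Phi_im]
    ring

/-- The arc of a marked edge. -/
noncomputable def gam (c s : ℝ) : ℂ := ⟨s, c * q s⟩

@[simp] theorem gam_re (c s : ℝ) : (gam c s).re = s := rfl
@[simp] theorem gam_im (c s : ℝ) : (gam c s).im = c * q s := rfl

/-- The image of a horizontal edge. -/
theorem Phi_horizontal {z : ℂ} {i j : ℤ} (h1 : i ≤ z.re) (h2 : z.re ≤ i + 1) (h3 : z.im = j) :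
    Phi z = gam (cc j) (z.re - i) + vec i j := by
  apply Complex.ext
  · rw [Phi_re, h3, sh_int, Complex.add_re, gam_re, vec_re]; ring
  · rw [Phi_im, h3, ch_int, qh_eq h1 h2, Complex.add_im, gam_im, vec_im]; ring

/-- The image of a vertical edge. -/
theorem Phi_vertical {z : ℂ} {i j : ℤ} (h1 : j ≤ z.im) (h2 : z.im ≤ j + 1) (h3 : z.re = i) :
    Phi z = ⟨(gam (rr j) (z.im - j)).im, (gam (rr j) (z.im - j)).re⟩ + vec i j := by
  apply Complex.ext
  · rw [Phi_re, h3, sh_eq h1 h2, Complex.add_re, vec_re, gam_im]; ring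
  · rw [Phi_im, h3, qh_int, Complex.add_im, vec_im, gam_re]; ring

end Pool.Agent.V11268.AE
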