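import Mathlib

set_option autoImplicit false

/-!
# Unions of convex sets with a common interior point are discs
-/

namespace Pool.Agent.V11268.AE

open Set Metric Topology

theorem continuous_rescale {g : ℂ → ℝ} (hg : Continuous g) (hsm : ∀ (t : ℝ) (x : ℂ), 0 ≤ t → g (t • x) = t * g x)
    (hnn : ∀ x, 0 ≤ g x) : Continuous (fun z : ℂ => (g z / ‖z‖) • z) := by
  have hg0 : g 0 = 0 := by
    have := hsm 0 0 le_rfl
    simpa using this
  rw [continuous_iff_continuousAt]
  intro z
  by_cases hz : z = 0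
  · subst hz
    have hnorm : ∀ z : ℂ, ‖(g z / ‖z‖) • z‖ = g z := by
      intro z
      by_cases hz : z = 0
      · subst hz; simp [hg0]
      · rw [norm_smul, Real.norm_eq_abs, abs_of_nonneg (by have := hnn z; positivity),
          div_mul_cancel₀ _ (norm_ne_zero_iff.2 hz)]
    rw [ContinuousAt, smul_zero, tendsto_zero_iff_norm_tendsto_zero]
    simp only [hnorm]
    have := hg.tendsto 0
    rwa [hg0] at this
  · exact ((hg.continuousAt).div continuous_norm.continuousAt (norm_ne_zero_iff.2 hz)).smul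
      continuousAt_id

theorem disc_of_gauge {S : Set ℂ} (hS : IsCompact S) {o : ℂ} {g : ℂ → ℝ} (hg : Continuous g)
    (hpos : ∀ x, x ≠ 0 → 0 < g x) (hsm : ∀ (t : ℝ) (x : ℂ), 0 ≤ t → g (t • x) = t * g x)
    (hmem : ∀ x, x ∈ S ↔ g (x - o) ≤ 1) : Nonempty (S ≃ₜ closedBall (0 : ℂ) 1) := by
  have hg0 : g 0 = 0 := by
    have := hsm 0 0 le_rfl
    simpa using this
  have hnn : ∀ x, 0 ≤ g x := by
    intro x
    by_cases hx : x = 0
    · rw [hx, hg0]
    · exact (hpos x hx).le
  have hnorm : ∀ z : ℂ, ‖(g z / ‖z‖) • z‖ = g z := by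
    intro z
    by_cases hz : z = 0
    · subst hz; simp [hg0]
    · rw [norm_smul, Real.norm_eq_abs, abs_of_nonneg (by have := hnn z; positivity),
        div_mul_cancel₀ _ (norm_ne_zero_iff.2 hz)]
  have hgauge : ∀ y : ℂ, g ((‖y‖ / g y) • y) = ‖y‖ := by
    intro y
    by_cases hy : y = 0
    · subst hy; simp [hg0]
    · rw [hsm _ _ (div_nonneg (norm_nonneg _) (hnn y)), div_mul_cancel₀ _ (hpos y hy).ne']
  let e : S ≃ closedBall (0 : ℂ) 1 :=
    { toFun := fun x => ⟨(g (x - o) / ‖(x : ℂ) - o‖) • ((x : ℂ) - o), by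
        rw [mem_closedBall, dist_zero_right, hnorm]
        exact (hmem x).1 x.2⟩
      invFun := fun y => ⟨(‖(y : ℂ)‖ / g y) • (y : ℂ) + o, by
        rw [hmem, add_sub_cancel_right, hgauge]
        have := y.2
        rwa [mem_closedBall, dist_zero_right] at this⟩
      left_inv := by
        intro x
        apply Subtype.ext
        show (‖(g ((x : ℂ) - o) / ‖(x : ℂ) - o‖) • ((x : ℂ) - o)‖ /
          g ((g ((x : ℂ) - o) / ‖(x : ℂ) - o‖) • ((x : ℂ) - o))) •
            ((g ((x : ℂ) - o) / ‖(x : ℂ) - o‖) • ((x : ℂ) - o)) + o = x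
        rw [hnorm]
        by_cases hx : (x : ℂ) - o = 0
        · rw [hx]; simp only [smul_zero, zero_add]; exact (sub_eq_zero.1 hx).symm
        · have h1 := hpos _ hx
          have h2 : 0 < ‖(x : ℂ) - o‖ := norm_pos_iff.2 hx
          rw [hsm _ _ (by positivity), smul_smul]
          have : g ((x : ℂ) - o) / (g ((x : ℂ) - o) / ‖(x : ℂ) - o‖ * g ((x : ℂ) - o)) *
              (g ((x : ℂ) - o) / ‖(x : ℂ) - o‖) = 1 := by
            field_simp
          rw [this, one_smul, sub_add_cancel]
      right_inv := by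
        intro y
        apply Subtype.ext
        show (g ((‖(y : ℂ)‖ / g y) • (y : ℂ) + o - o) / ‖(‖(y : ℂ)‖ / g y) • (y : ℂ) + o - o‖) •
          ((‖(y : ℂ)‖ / g y) • (y : ℂ) + o - o) = y
        rw [add_sub_cancel_right, hgauge]
        by_cases hy : (y : ℂ) = 0
        · rw [hy]; simp
        · have h1 := hpos _ hy
          have h2 : 0 < ‖(y : ℂ)‖ := norm_pos_iff.2 hy
          rw [norm_smul, Real.norm_eq_abs, abs_of_nonneg (by positivity), smul_smul]
          have : ‖(y : ℂ)‖ / (‖(y : ℂ)‖ / g y * ‖(y : ℂ)‖) * (‖(y : ℂ)‖ / g y) = 1 := by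
            field_simp
          rw [this, one_smul] }
  have : CompactSpace S := isCompact_iff_compactSpace.1 hS
  refine ⟨Continuous.homeoOfEquivCompactToT2 (f := e) ?_⟩
  apply Continuous.subtype_mk
  exact (continuous_rescale hg hsm hnn).comp (continuous_subtype_val.sub continuous_const)

/-- A finite union of compact convex sets with a common interior point is a closed disc. -/
theorem disc_of_convex {ι : Type*} {I : Finset ι} (hne : I.Nonempty) {C : ι → Set ℂ} {o : ℂ}
    (hc : ∀ i ∈ I, Convex ℝ (C i)) (hk : ∀ i ∈ I, IsCompact (C i))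
    (ho : ∀ i ∈ I, o ∈ interior (C i)) :
    Nonempty ((⋃ i ∈ I, C i : Set ℂ) ≃ₜ closedBall (0 : ℂ) 1) := by
  set D : ι → Set ℂ := fun i => (fun x => x + o) ⁻¹' C i with hD
  have hDc : ∀ i ∈ I, Convex ℝ (D i) := fun i hi => (hc i hi).translate_preimage_left o
  have hD0 : ∀ i ∈ I, D i ∈ 𝓝 (0 : ℂ) := by
    intro i hi
    have h1 : C i ∈ 𝓝 ((0 : ℂ) + o) := by
      rw [zero_add]; exact mem_interior_iff_mem_nhds.1 (ho i hi)
    exact (continuous_add_const o).continuousAt.preimage_mem_nhds h1
  have hDk : ∀ i ∈ I, IsCompact (D i) := by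
    intro i hi
    exact (Homeomorph.addRight o).isCompact_preimage.2 (hk i hi)
  set g : ℂ → ℝ := fun x => I.inf' hne (fun i => gauge (D i) x) with hg
  refine disc_of_gauge (o := o) (g := g) (I.isCompact_biUnion hk) ?_ ?_ ?_ ?_
  · exact Continuous.finset_inf'_apply hne fun i hi => continuous_gauge (hDc i hi) (hD0 i hi)
  · intro x hx
    rw [hg]
    simp only [Finset.lt_inf'_iff]
    intro i hi
    exact (gauge_pos (absorbent_nhds_zero (hD0 i hi))
      ((NormedSpace.isVonNBounded_iff ℝ).2 (hDk i hi).isBounded)).2 hx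
  · intro t x ht
    rw [hg]
    simp only
    have h1 : ∀ i, gauge (D i) (t • x) = t * gauge (D i) x := fun i => by
      rw [gauge_smul_of_nonneg ht, smul_eq_mul]
    simp only [h1]
    rcases ht.eq_or_lt with h | h
    · rw [← h]; simp
    · exact (Finset.apply_inf'_eq_inf'_comp hne (fun y => t * y) (fun a b => by
        rw [mul_min_of_nonneg _ _ ht])).symm
  · intro x
    rw [hg]
    simp only [Finset.inf'_le_iff, mem_iUnion, exists_prop]
    apply exists_congr
    intro i
    apply and_congr_right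
    intro hi
    rw [gauge_le_one_iff_mem_closure (hDc i hi) (hD0 i hi), (hDk i hi).isClosed.closure_eq, hD]
    simp

end Pool.Agent.V11268.AE
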