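import Mathlib
import Pool.Agent.V11268.AE.A1
import Pool.Agent.V11268.AE.A3

set_option autoImplicit false

/-!
# Rectangles, cells and polyominoes
-/

namespace Pool.Agent.V11268.AE

open Set Metric Topology

/-- The closed rectangle `[a, b] × [c, d]`. -/
def rect (a b c d : ℤ) : Set ℂ := {z | (a : ℝ) ≤ z.re ∧ z.re ≤ b ∧ (c : ℝ) ≤ z.im ∧ z.im ≤ d}

/-- The open rectangle `(a, b) × (c, d)`. -/
def orect (a b c d : ℤ) : Set ℂ := {z | (a : ℝ) < z.re ∧ z.re < b ∧ (c : ℝ) < z.im ∧ z.im < d}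

theorem rect_eq (a b c d : ℤ) : rect a b c d = Icc (a : ℝ) b ×ℂ Icc (c : ℝ) d := by
  ext z; simp only [rect, mem_ofPred_eq, Complex.mem_reProdIm, mem_Icc]; tauto

theorem orect_eq (a b c d : ℤ) : orect a b c d = Ioo (a : ℝ) b ×ℂ Ioo (c : ℝ) d := by
  ext z; simp only [orect, mem_ofPred_eq, Complex.mem_reProdIm, mem_Ioo]; tauto

theorem isOpen_orect (a b c d : ℤ) : IsOpen (orect a b c d) := by
  rw [orect_eq]; exact isOpen_Ioo.reProdIm isOpen_Ioo

theorem isCompact_rect (a b c d : ℤ) : IsCompact (rect a b c d) := by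
  rw [rect_eq]; exact isCompact_Icc.reProdIm isCompact_Icc

theorem orect_subset (a b c d : ℤ) : orect a b c d ⊆ rect a b c d :=
  fun _ h => ⟨h.1.le, h.2.1.le, h.2.2.1.le, h.2.2.2.le⟩

theorem orect_subset_interior (a b c d : ℤ) : orect a b c d ⊆ interior (rect a b c d) :=
  interior_maximal (orect_subset a b c d) (isOpen_orect a b c d)

theorem closure_orect {a b c d : ℤ} (hab : a < b) (hcd : c < d) :
    closure (orect a b c d) = rect a b c d := by
  have h1 : (a : ℝ) < b := by exact_mod_cast hab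
  have h2 : (c : ℝ) < d := by exact_mod_cast hcd
  rw [orect_eq, rect_eq, Complex.closure_reProdIm, closure_Ioo h1.ne, closure_Ioo h2.ne]

theorem convex_rect (a b c d : ℤ) : Convex ℝ (rect a b c d) := by
  intro x hx y hy s t hs ht hst
  obtain ⟨h1, h2, h3, h4⟩ := hx
  obtain ⟨k1, k2, k3, k4⟩ := hy
  have hs' : s = 1 - t := by linarith
  subst hs'
  simp only [rect, mem_ofPred_eq, Complex.add_re, Complex.add_im, Complex.real_smul, Complex.mul_re,
    Complex.mul_im, Complex.ofReal_re, Complex.ofReal_im, zero_mul, sub_zero, add_zero]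
  refine ⟨?_, ?_, ?_, ?_⟩ <;> nlinarith

/-- The union of the closed cells with lower left corner in `A`. -/
def U (A : Set (ℤ × ℤ)) : Set ℂ := ⋃ p ∈ A, rect p.1 (p.1 + 1) p.2 (p.2 + 1)

theorem mem_U {A : Set (ℤ × ℤ)} {z : ℂ} : z ∈ U A ↔ ∃ p ∈ A, z ∈ rect p.1 (p.1 + 1) p.2 (p.2 + 1) := by
  simp only [U, mem_iUnion, exists_prop]

theorem U_mono {A B : Set (ℤ × ℤ)} (h : A ⊆ B) : U A ⊆ U B := by
  intro z hz
  rw [mem_U] at hz ⊢
  obtain ⟨p, hp, hz⟩ := hz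
  exact ⟨p, h hp, hz⟩

theorem U_union (A B : Set (ℤ × ℤ)) : U (A ∪ B) = U A ∪ U B := by
  ext z
  simp only [mem_union, mem_U]
  constructor
  · rintro ⟨p, hp | hp, hz⟩
    · exact Or.inl ⟨p, hp, hz⟩
    · exact Or.inr ⟨p, hp, hz⟩
  · rintro (⟨p, hp, hz⟩ | ⟨p, hp, hz⟩)
    · exact ⟨p, Or.inl hp, hz⟩
    · exact ⟨p, Or.inr hp, hz⟩

theorem U_iUnion {ι : Type*} (I : Set ι) (A : ι → Set (ℤ × ℤ)) :
    U (⋃ i ∈ I, A i) = ⋃ i ∈ I, U (A i) := by
  ext z
  simp only [mem_iUnion, mem_U, exists_prop]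
  constructor
  · rintro ⟨p, ⟨i, hi, hp⟩, hz⟩
    exact ⟨i, hi, p, hp, hz⟩
  · rintro ⟨i, hi, p, hp, hz⟩
    exact ⟨p, ⟨i, hi, hp⟩, hz⟩

theorem exists_cell {a b : ℤ} (hab : a < b) {x : ℝ} (h1 : (a : ℝ) ≤ x) (h2 : x ≤ b) :
    ∃ i : ℤ, a ≤ i ∧ i < b ∧ (i : ℝ) ≤ x ∧ x ≤ ((i + 1 : ℤ) : ℝ) := by
  rcases h2.eq_or_lt with h | h
  · refine ⟨b - 1, by omega, by omega, ?_, ?_⟩
    · rw [h]; push_cast; linarith
    · rw [h]; push_cast; linarith
  · refine ⟨⌊x⌋, Int.le_floor.2 h1, Int.floor_lt.2 h, Int.floor_le x, ?_⟩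
    push_cast
    exact (Int.lt_floor_add_one x).le

/-- A rectangle is the union of its cells. -/
theorem rect_eq_U {a b c d : ℤ} (hab : a < b) (hcd : c < d) :
    rect a b c d = U {p | a ≤ p.1 ∧ p.1 < b ∧ c ≤ p.2 ∧ p.2 < d} := by
  ext z
  rw [mem_U]
  constructor
  · rintro ⟨h1, h2, h3, h4⟩
    obtain ⟨i, i1, i2, i3, i4⟩ := exists_cell hab h1 h2
    obtain ⟨j, j1, j2, j3, j4⟩ := exists_cell hcd h3 h4
    exact ⟨(i, j), ⟨i1, i2, j1, j2⟩, i3, i4, j3, j4⟩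
  · rintro ⟨⟨i, j⟩, ⟨i1, i2, j1, j2⟩, h1, h2, h3, h4⟩
    simp only at i1 i2 j1 j2 h1 h2 h3 h4
    have k1 : (a : ℝ) ≤ i := by exact_mod_cast i1
    have k2 : ((i + 1 : ℤ) : ℝ) ≤ b := by exact_mod_cast i2
    have k3 : (c : ℝ) ≤ j := by exact_mod_cast j1
    have k4 : ((j + 1 : ℤ) : ℝ) ≤ d := by exact_mod_cast j2
    exact ⟨by linarith, by linarith, by linarith, by linarith⟩

theorem cell_of_irrational {z : ℂ} (h1 : Irrational z.re) (h2 : Irrational z.im) {p : ℤ × ℤ}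
    (h : z ∈ rect p.1 (p.1 + 1) p.2 (p.2 + 1)) : p = (⌊z.re⌋, ⌊z.im⌋) := by
  obtain ⟨k1, k2, k3, k4⟩ := h
  have hx : z.re ≠ ((p.1 + 1 : ℤ) : ℝ) := h1.ne_int _
  have hy : z.im ≠ ((p.2 + 1 : ℤ) : ℝ) := h2.ne_int _
  have e1 : ⌊z.re⌋ = p.1 := Int.floor_eq_iff.2 ⟨k1, by
    have := lt_of_le_of_ne k2 hx; push_cast at this; exact this⟩
  have e2 : ⌊z.im⌋ = p.2 := Int.floor_eq_iff.2 ⟨k3, by
    have := lt_of_le_of_ne k4 hy; push_cast at this; exact this⟩
  rw [e1, e2]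

theorem exists_irrational {V : Set ℂ} (hV : IsOpen V) (hne : V.Nonempty) :
    ∃ z ∈ V, Irrational z.re ∧ Irrational z.im := by
  obtain ⟨w, hw⟩ := hne
  obtain ⟨ε, hε, hb⟩ := Metric.isOpen_iff.1 hV w hw
  obtain ⟨x, hx, hx1, hx2⟩ := exists_irrational_btwn (show w.re < w.re + ε / 2 by linarith)
  obtain ⟨y, hy, hy1, hy2⟩ := exists_irrational_btwn (show w.im < w.im + ε / 2 by linarith)
  refine ⟨⟨x, y⟩, hb ?_, hx, hy⟩
  rw [mem_ball, dist_eq_norm]
  refine (Complex.norm_le_abs_re_add_abs_im _).trans_lt ?_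
  simp only [Complex.sub_re, Complex.sub_im]
  rw [abs_of_pos (by linarith), abs_of_pos (by linarith)]
  linarith

/-- Polyominoes without a common cell do not overlap. -/
theorem disjoint_interior_U {A B : Set (ℤ × ℤ)} (h : Disjoint A B) :
    Disjoint (interior (U A)) (interior (U B)) := by
  rw [Set.disjoint_iff_inter_eq_empty]
  by_contra hne
  obtain ⟨z, ⟨hz1, hz2⟩, h1, h2⟩ := exists_irrational (isOpen_interior.inter isOpen_interior)
    (Set.nonempty_iff_ne_empty.2 hne)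
  obtain ⟨p, hp, hzp⟩ := mem_U.1 (interior_subset hz1)
  obtain ⟨p', hp', hzp'⟩ := mem_U.1 (interior_subset hz2)
  have e := cell_of_irrational h1 h2 hzp
  have e' := cell_of_irrational h1 h2 hzp'
  rw [← e'] at e
  subst e
  exact Set.disjoint_left.1 h hp hp'

theorem center_mem_interior {A : Set (ℤ × ℤ)} {p : ℤ × ℤ} (hp : p ∈ A) :
    (⟨p.1 + 1 / 2, p.2 + 1 / 2⟩ : ℂ) ∈ interior (U A) := by
  refine mem_interior.2 ⟨orect p.1 (p.1 + 1) p.2 (p.2 + 1), ?_, isOpen_orect _ _ _ _, ?_⟩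
  · intro z hz
    exact mem_U.2 ⟨p, hp, orect_subset _ _ _ _ hz⟩
  · refine ⟨?_, ?_, ?_, ?_⟩ <;> push_cast <;> linarith

/-- Translation of polyominoes. -/
theorem U_translate (A : Set (ℤ × ℤ)) (a b : ℤ) :
    (fun z => z + vec a b) '' U A = U {p | (p.1 - a, p.2 - b) ∈ A} := by
  ext z
  rw [mem_image, mem_U]
  constructor
  · rintro ⟨w, hw, rfl⟩
    obtain ⟨p, hp, h1, h2, h3, h4⟩ := mem_U.1 hw
    refine ⟨(p.1 + a, p.2 + b), ?_, ?_⟩
    · simpa using hp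
    · push_cast at h2 h4
      refine ⟨?_, ?_, ?_, ?_⟩ <;> push_cast <;> simp only [Complex.add_re, Complex.add_im, vec_re, vec_im]
        <;> linarith
  · rintro ⟨p, hp, h1, h2, h3, h4⟩
    refine ⟨z - vec a b, ?_, by ring⟩
    rw [mem_U]
    refine ⟨_, hp, ?_⟩
    push_cast at h2 h4
    refine ⟨?_, ?_, ?_, ?_⟩ <;> push_cast <;> simp only [Complex.sub_re, Complex.sub_im, vec_re, vec_im]
      <;> linarith

/-! ### The tiles -/

/-- The types of the tiles. -/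
inductive Ty
  | P | Q | F
  deriving DecidableEq

open Ty

instance : Fintype Ty := ⟨{P, Q, F}, by intro x; cases x <;> simp⟩

/-- The cells of the tiles. -/
def base (M : ℤ) : Ty → Set (ℤ × ℤ)
  | P => {p | (0 ≤ p.1 ∧ p.1 < 2 * M ∧ p.2 = 0) ∨ (p.1 = 0 ∧ p.2 = -1)}
  | Q => {p | (0 ≤ p.1 ∧ p.1 < 2 * M - 1 ∧ p.2 = -2) ∨ (p.1 = M ∧ p.2 = -1)}
  | F => {p | p.1 = 0 ∧ p.2 = -1}

theorem U_P {M : ℤ} (hM : 1 < M) : U (base M P) = rect 0 (2 * M) 0 1 ∪ rect 0 1 (-1) 0 := by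
  rw [rect_eq_U (by omega) (by omega), rect_eq_U (by omega) (by omega), ← U_union]
  congr 1
  ext ⟨i, j⟩
  simp only [base, mem_union, mem_ofPred_eq]
  omega

theorem U_Q {M : ℤ} (hM : 1 < M) :
    U (base M Q) = rect 0 (2 * M - 1) (-2) (-1) ∪ rect M (M + 1) (-1) 0 := by
  rw [rect_eq_U (by omega) (by omega), rect_eq_U (by omega) (by omega), ← U_union]
  congr 1
  ext ⟨i, j⟩
  simp only [base, mem_union, mem_ofPred_eq]
  omega

theorem U_F {M : ℤ} : U (base M F) = rect 0 1 (-1) 0 := by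
  rw [rect_eq_U (by omega) (by omega)]
  congr 1
  ext ⟨i, j⟩
  simp only [base, mem_ofPred_eq]
  omega

/-- The tiles. -/
noncomputable def tile (M : ℤ) (t : Ty) : Set ℂ := Phi '' U (base M t)

theorem disc_image {S : Set ℂ} (e : ℂ ≃ₜ ℂ) (h : Nonempty (S ≃ₜ closedBall (0 : ℂ) 1)) :
    Nonempty ((e '' S : Set ℂ) ≃ₜ closedBall (0 : ℂ) 1) := by
  obtain ⟨f⟩ := h
  exact ⟨(e.image S).symm.trans f⟩

theorem disc_rects {ι : Type*} {I : Finset ι} (hne : I.Nonempty) {a b c d : ι → ℤ} {o : ℂ}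
    (ho : ∀ i ∈ I, o ∈ orect (a i) (b i) (c i) (d i)) :
    Nonempty ((⋃ i ∈ I, rect (a i) (b i) (c i) (d i) : Set ℂ) ≃ₜ closedBall (0 : ℂ) 1) :=
  disc_of_convex hne (fun _ _ => convex_rect _ _ _ _) (fun _ _ => isCompact_rect _ _ _ _)
    (fun i hi => orect_subset_interior _ _ _ _ (ho i hi))

theorem disc_two {a b c d a' b' c' d' : ℤ} {o : ℂ} (h : o ∈ orect a b c d)
    (h' : o ∈ orect a' b' c' d') :
    Nonempty ((rect a b c d ∪ rect a' b' c' d' : Set ℂ) ≃ₜ closedBall (0 : ℂ) 1) := by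
  have := disc_rects (I := (Finset.univ : Finset Bool)) Finset.univ_nonempty
    (a := fun i => cond i a a') (b := fun i => cond i b b') (c := fun i => cond i c c')
    (d := fun i => cond i d d') (o := o) (by
      intro i _
      cases i
      · exact h'
      · exact h)
  have e : (⋃ i ∈ (Finset.univ : Finset Bool), rect (cond i a a') (cond i b b') (cond i c c')
      (cond i d d') : Set ℂ) = rect a b c d ∪ rect a' b' c' d' := by
    ext z
    simp only [Finset.mem_univ, iUnion_true, mem_iUnion, Bool.exists_bool, mem_union, cond_true,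
      cond_false]
    tauto
  rwa [e] at this

theorem disc_base {M : ℤ} (hM : 1 < M) (t : Ty) : Nonempty (U (base M t) ≃ₜ closedBall (0 : ℂ) 1) := by
  have hMr : (1 : ℝ) < M := by exact_mod_cast hM
  cases t
  · rw [U_P hM]
    have e : rect 0 (2 * M) 0 1 ∪ rect 0 1 (-1) 0 = rect 0 (2 * M) 0 1 ∪ rect 0 1 (-1) 1 := by
      ext z
      simp only [rect, mem_union, mem_ofPred_eq]
      push_cast
      constructor
      · rintro (⟨h1, h2, h3, h4⟩ | ⟨h1, h2, h3, h4⟩)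
        · left; exact ⟨h1, h2, h3, h4⟩
        · right; exact ⟨h1, h2, h3, by linarith⟩
      · rintro (⟨h1, h2, h3, h4⟩ | ⟨h1, h2, h3, h4⟩)
        · left; exact ⟨h1, h2, h3, h4⟩
        · rcases le_total 0 z.im with h | h
          · left; exact ⟨h1, by linarith, h, h4⟩
          · right; exact ⟨h1, h2, h3, h⟩
    rw [e]
    exact disc_two (o := ⟨1 / 2, 1 / 2⟩)
      (by refine ⟨?_, ?_, ?_, ?_⟩ <;> push_cast <;> linarith)
      (by refine ⟨?_, ?_, ?_, ?_⟩ <;> push_cast <;> norm_num)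
  · rw [U_Q hM]
    have e : rect 0 (2 * M - 1) (-2) (-1) ∪ rect M (M + 1) (-1) 0 =
        rect 0 (2 * M - 1) (-2) (-1) ∪ rect M (M + 1) (-2) 0 := by
      have hM2 : (M : ℝ) + 1 ≤ 2 * M - 1 := by
        have : M + 1 ≤ 2 * M - 1 := by omega
        exact_mod_cast this
      ext z
      simp only [rect, mem_union, mem_ofPred_eq]
      push_cast
      constructor
      · rintro (⟨h1, h2, h3, h4⟩ | ⟨h1, h2, h3, h4⟩)
        · left; exact ⟨h1, h2, h3, h4⟩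
        · right; exact ⟨h1, h2, by linarith, by linarith⟩
      · rintro (⟨h1, h2, h3, h4⟩ | ⟨h1, h2, h3, h4⟩)
        · left; exact ⟨h1, h2, h3, h4⟩
        · rcases le_total (-1) z.im with h | h
          · right; exact ⟨h1, h2, h, h4⟩
          · left; exact ⟨by linarith, by linarith, h3, h⟩
    rw [e]
    have hM2 : (M : ℝ) + 1 ≤ 2 * M - 1 := by
      have : M + 1 ≤ 2 * M - 1 := by omega
      exact_mod_cast this
    exact disc_two (o := ⟨M + 1 / 2, -3 / 2⟩)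
      (by refine ⟨?_, ?_, ?_, ?_⟩ <;> push_cast <;> linarith)
      (by refine ⟨?_, ?_, ?_, ?_⟩ <;> push_cast <;> linarith)
  · rw [U_F]
    have := disc_two (a := 0) (b := 1) (c := -1) (d := 0) (a' := 0) (b' := 1) (c' := -1) (d' := 0)
      (o := ⟨1 / 2, -1 / 2⟩)
      (by refine ⟨?_, ?_, ?_, ?_⟩ <;> push_cast <;> norm_num)
      (by refine ⟨?_, ?_, ?_, ?_⟩ <;> push_cast <;> norm_num)
    rwa [union_self] at this

theorem disc_tile {M : ℤ} (hM : 1 < M) (t : Ty) : Nonempty (tile M t ≃ₜ closedBall (0 : ℂ) 1) :=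
  disc_image Phi (disc_base hM t)

end Pool.Agent.V11268.AE
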