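import Mathlib
import Pool.Agent.V11268.AE.A4

set_option autoImplicit false

/-!
# The patches
-/

namespace Pool.Agent.V11268.AE

open Set Metric Topology

open Ty

/-- The cells of the tile of type `t` at the position `(a, 3 b)`. -/
def cells (M : ℤ) (t : Ty) (a b : ℤ) : Set (ℤ × ℤ) := {p | (p.1 - a, p.2 - 3 * b) ∈ base M t}

/-- The positions of the tiles in the patch of level `i`. -/
def Valid (M i : ℤ) : Ty → ℤ → ℤ → Prop
  | P, a, b => -i ≤ b ∧ b ≤ i ∧ ∃ j, a = j * (2 * M) ∧ -(2 * i + b) ≤ j ∧ j ≤ 2 * i + b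
  | Q, a, b => -i ≤ b ∧ b ≤ i ∧ ∃ j, a = j * (2 * M - 1) ∧ -(2 * i + b) ≤ j ∧ j ≤ 2 * i + b
  | F, a, b => -i ≤ b ∧ b ≤ i ∧ -(2 * i + b) * (2 * M) ≤ a ∧ a < (2 * i + b + 1) * (2 * M) ∧
      (¬ ∃ j, a = j * (2 * M)) ∧ ¬ ∃ j, a = M + j * (2 * M - 1)

theorem eucl {N j j' x : ℤ} (h1 : 0 ≤ x - j * N) (h2 : x - j * N < N) (h3 : 0 ≤ x - j' * N)
    (h4 : x - j' * N < N) : j = j' := by
  rcases lt_trichotomy j j' with h | h | h
  · exfalso; nlinarith
  · exact h
  · exfalso; nlinarith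

theorem no_clash {M j j' : ℤ} (h : j * (2 * M) = M + j' * (2 * M - 1)) (h1 : -M < j') (h2 : j' < M) :
    False := by
  rcases le_or_gt (j - j') 0 with hw | hw
  · nlinarith
  · nlinarith

theorem index_unique {M i : ℤ} (hM : 3 * i + 2 ≤ M) {t t' : Ty} {a b a' b' : ℤ}
    (h : Valid M i t a b) (h' : Valid M i t' a' b') {p : ℤ × ℤ} (hp : p ∈ cells M t a b)
    (hp' : p ∈ cells M t' a' b') : t = t' ∧ a = a' ∧ b = b' := by
  obtain ⟨x, y⟩ := p
  cases t <;> cases t'
  · -- P P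
    obtain ⟨h1, h2, j, rfl, h3, h4⟩ := h
    obtain ⟨h1', h2', j', rfl, h3', h4'⟩ := h'
    simp only [cells, base, mem_ofPred_eq] at hp hp'
    rcases hp with ⟨p1, p2, p3⟩ | ⟨p1, p2⟩ <;> rcases hp' with ⟨q1, q2, q3⟩ | ⟨q1, q2⟩
    · have := eucl p1 p2 q1 q2
      subst this
      exact ⟨rfl, rfl, by omega⟩
    · omega
    · omega
    · exact ⟨rfl, by omega, by omega⟩
  · -- P Q
    exfalso
    obtain ⟨h1, h2, j, rfl, h3, h4⟩ := h
    obtain ⟨h1', h2', j', rfl, h3', h4'⟩ := h'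
    simp only [cells, base, mem_ofPred_eq] at hp hp'
    rcases hp with ⟨p1, p2, p3⟩ | ⟨p1, p2⟩ <;> rcases hp' with ⟨q1, q2, q3⟩ | ⟨q1, q2⟩
    · omega
    · omega
    · omega
    · exact no_clash (M := M) (j := j) (j' := j') (by linarith) (by omega) (by omega)
  · -- P F
    exfalso
    obtain ⟨h1, h2, j, rfl, h3, h4⟩ := h
    obtain ⟨h1', h2', h3', h4', h5', h6'⟩ := h'
    simp only [cells, base, mem_ofPred_eq] at hp hp'
    rcases hp with ⟨p1, p2, p3⟩ | ⟨p1, p2⟩
    · omega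
    · exact h5' ⟨j, by linarith [hp'.1]⟩
  · -- Q P
    exfalso
    obtain ⟨h1', h2', j', rfl, h3', h4'⟩ := h
    obtain ⟨h1, h2, j, rfl, h3, h4⟩ := h'
    simp only [cells, base, mem_ofPred_eq] at hp hp'
    rcases hp' with ⟨p1, p2, p3⟩ | ⟨p1, p2⟩ <;> rcases hp with ⟨q1, q2, q3⟩ | ⟨q1, q2⟩
    · omega
    · omega
    · omega
    · exact no_clash (M := M) (j := j) (j' := j') (by linarith) (by omega) (by omega)
  · -- Q Q
    obtain ⟨h1, h2, j, rfl, h3, h4⟩ := h
    obtain ⟨h1', h2', j', rfl, h3', h4'⟩ := h'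
    simp only [cells, base, mem_ofPred_eq] at hp hp'
    rcases hp with ⟨p1, p2, p3⟩ | ⟨p1, p2⟩ <;> rcases hp' with ⟨q1, q2, q3⟩ | ⟨q1, q2⟩
    · have := eucl p1 p2 q1 q2
      subst this
      exact ⟨rfl, rfl, by omega⟩
    · omega
    · omega
    · exact ⟨rfl, by omega, by omega⟩
  · -- Q F
    exfalso
    obtain ⟨h1, h2, j, rfl, h3, h4⟩ := h
    obtain ⟨h1', h2', h3', h4', h5', h6'⟩ := h'
    simp only [cells, base, mem_ofPred_eq] at hp hp'
    rcases hp with ⟨p1, p2, p3⟩ | ⟨p1, p2⟩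
    · omega
    · exact h6' ⟨j, by linarith [hp'.1]⟩
  · -- F P
    exfalso
    obtain ⟨h1', h2', h3', h4', h5', h6'⟩ := h
    obtain ⟨h1, h2, j, rfl, h3, h4⟩ := h'
    simp only [cells, base, mem_ofPred_eq] at hp hp'
    rcases hp' with ⟨p1, p2, p3⟩ | ⟨p1, p2⟩
    · omega
    · exact h5' ⟨j, by linarith [hp.1]⟩
  · -- F Q
    exfalso
    obtain ⟨h1', h2', h3', h4', h5', h6'⟩ := h
    obtain ⟨h1, h2, j, rfl, h3, h4⟩ := h'
    simp only [cells, base, mem_ofPred_eq] at hp hp'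
    rcases hp' with ⟨p1, p2, p3⟩ | ⟨p1, p2⟩
    · omega
    · exact h6' ⟨j, by linarith [hp.1]⟩
  · -- F F
    simp only [cells, base, mem_ofPred_eq] at hp hp'
    exact ⟨rfl, by omega, by omega⟩

/-- The cells of the region of level `i`. -/
def Reg (M i : ℤ) : Set (ℤ × ℤ) := {p | ∃ b, -i ≤ b ∧ b ≤ i ∧
  (((p.2 = 3 * b ∨ p.2 = 3 * b - 1) ∧ -(2 * i + b) * (2 * M) ≤ p.1 ∧
      p.1 < (2 * i + b + 1) * (2 * M)) ∨
    (p.2 = 3 * b - 2 ∧ -(2 * i + b) * (2 * M - 1) ≤ p.1 ∧ p.1 < (2 * i + b + 1) * (2 * M - 1)))}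

theorem cells_subset_Reg {M i : ℤ} (hi : 0 ≤ i) (hM : 3 * i + 2 ≤ M) {t : Ty} {a b : ℤ}
    (h : Valid M i t a b) : cells M t a b ⊆ Reg M i := by
  rintro ⟨x, y⟩ hp
  cases t
  · obtain ⟨h1, h2, j, rfl, h3, h4⟩ := h
    simp only [cells, base, mem_ofPred_eq] at hp
    refine ⟨b, h1, h2, Or.inl ?_⟩
    simp only
    have e1 : -(2 * i + b) * (2 * M) ≤ j * (2 * M) := mul_le_mul_of_nonneg_right h3 (by omega)
    have e2 : j * (2 * M) ≤ (2 * i + b) * (2 * M) := mul_le_mul_of_nonneg_right h4 (by omega)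
    have e3 : (2 * i + b + 1) * (2 * M) = (2 * i + b) * (2 * M) + 2 * M := by ring
    rcases hp with ⟨p1, p2, p3⟩ | ⟨p1, p2⟩
    · exact ⟨by omega, by linarith, by linarith⟩
    · exact ⟨by omega, by linarith, by linarith⟩
  · obtain ⟨h1, h2, j, rfl, h3, h4⟩ := h
    simp only [cells, base, mem_ofPred_eq] at hp
    have e1 : -(2 * i + b) * (2 * M - 1) ≤ j * (2 * M - 1) := mul_le_mul_of_nonneg_right h3 (by omega)
    have e2 : j * (2 * M - 1) ≤ (2 * i + b) * (2 * M - 1) := mul_le_mul_of_nonneg_right h4 (by omega)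
    have e3 : (2 * i + b + 1) * (2 * M - 1) = (2 * i + b) * (2 * M - 1) + (2 * M - 1) := by ring
    have e4 : -(2 * i + b) * (2 * M - 1) = -(2 * i + b) * (2 * M) + (2 * i + b) := by ring
    have e5 : (2 * i + b) * (2 * M - 1) = (2 * i + b) * (2 * M) - (2 * i + b) := by ring
    have e6 : (2 * i + b + 1) * (2 * M) = (2 * i + b) * (2 * M) + 2 * M := by ring
    refine ⟨b, h1, h2, ?_⟩
    simp only
    rcases hp with ⟨p1, p2, p3⟩ | ⟨p1, p2⟩
    · right
      exact ⟨by omega, by linarith, by linarith⟩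
    · left
      exact ⟨by omega, by linarith, by linarith⟩
  · obtain ⟨h1, h2, h3, h4, -, -⟩ := h
    simp only [cells, base, mem_ofPred_eq] at hp
    refine ⟨b, h1, h2, Or.inl ⟨?_, ?_, ?_⟩⟩
    · simp only; omega
    · simp only; linarith [hp.1]
    · simp only; linarith [hp.1]

theorem div_bounds {N n x : ℤ} (hN : 0 < N) (h1 : -n * N ≤ x) (h2 : x < (n + 1) * N) :
    ∃ j, 0 ≤ x - j * N ∧ x - j * N < N ∧ -n ≤ j ∧ j ≤ n := by
  refine ⟨x / N, ?_, ?_, ?_, ?_⟩
  · have := Int.ediv_mul_le x hN.ne'; linarith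
  · have := Int.lt_ediv_add_one_mul_self x hN; linarith
  · exact (Int.le_ediv_iff_mul_le hN).2 h1
  · have := (Int.ediv_lt_iff_lt_mul hN).2 h2; omega

theorem Reg_subset_cells {M i : ℤ} (hi : 0 ≤ i) (hM : 3 * i + 2 ≤ M) {p : ℤ × ℤ}
    (hp : p ∈ Reg M i) : ∃ t a b, Valid M i t a b ∧ p ∈ cells M t a b := by
  obtain ⟨x, y⟩ := p
  obtain ⟨b, hb1, hb2, ⟨hy | hy, h1, h2⟩ | ⟨hy, h1, h2⟩⟩ := hp
  · simp only at hy h1 h2
    obtain ⟨j, j1, j2, j3, j4⟩ := div_bounds (by omega) h1 h2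
    refine ⟨P, j * (2 * M), b, ⟨hb1, hb2, j, rfl, j3, j4⟩, ?_⟩
    simp only [cells, base, mem_ofPred_eq]
    left
    exact ⟨j1, j2, by omega⟩
  · simp only at hy h1 h2
    by_cases hP : ∃ j, x = j * (2 * M)
    · obtain ⟨j, rfl⟩ := hP
      have j3 : -(2 * i + b) ≤ j := le_of_mul_le_mul_right h1 (by omega)
      have j4 : j < 2 * i + b + 1 := lt_of_mul_lt_mul_right h2 (by omega)
      refine ⟨P, j * (2 * M), b, ⟨hb1, hb2, j, rfl, j3, by omega⟩, ?_⟩
      simp only [cells, base, mem_ofPred_eq]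
      right
      exact ⟨by omega, by omega⟩
    · by_cases hQ : ∃ j, x = M + j * (2 * M - 1)
      · obtain ⟨j, rfl⟩ := hQ
        refine ⟨Q, j * (2 * M - 1), b, ⟨hb1, hb2, j, rfl, ?_, ?_⟩, ?_⟩
        · by_contra hj
          have : j ≤ -(2 * i + b) - 1 := by omega
          have := mul_le_mul_of_nonneg_right this (show 0 ≤ 2 * M - 1 by omega)
          have e : (-(2 * i + b) - 1) * (2 * M - 1) =
            -(2 * i + b) * (2 * M) + (2 * i + b) - 2 * M + 1 := by ring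
          linarith
        · by_contra hj
          have : 2 * i + b + 1 ≤ j := by omega
          have := mul_le_mul_of_nonneg_right this (show 0 ≤ 2 * M - 1 by omega)
          have e : (2 * i + b + 1) * (2 * M - 1) =
            (2 * i + b + 1) * (2 * M) - (2 * i + b) - 1 := by ring
          linarith
        · simp only [cells, base, mem_ofPred_eq]
          right
          exact ⟨by omega, by omega⟩
      · refine ⟨F, x, b, ⟨hb1, hb2, h1, h2, hP, hQ⟩, ?_⟩
        simp only [cells, base, mem_ofPred_eq]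
        exact ⟨by omega, by omega⟩
  · simp only at hy h1 h2
    obtain ⟨j, j1, j2, j3, j4⟩ := div_bounds (by omega) h1 h2
    refine ⟨Q, j * (2 * M - 1), b, ⟨hb1, hb2, j, rfl, j3, j4⟩, ?_⟩
    simp only [cells, base, mem_ofPred_eq]
    left
    exact ⟨j1, j2, by omega⟩

/-- The rectangles of the region. -/
def rA (M i : ℤ) (k : ℤ × Bool) : ℤ := -(2 * i + k.1) * cond k.2 (2 * M) (2 * M - 1)
def rB (M i : ℤ) (k : ℤ × Bool) : ℤ := (2 * i + k.1 + 1) * cond k.2 (2 * M) (2 * M - 1)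
def rC (k : ℤ × Bool) : ℤ := 3 * k.1 - cond k.2 1 2
noncomputable def rI (i : ℤ) : Finset (ℤ × Bool) := Finset.Icc (-i) i ×ˢ Finset.univ

theorem mem_rI {i : ℤ} {k : ℤ × Bool} : k ∈ rI i ↔ -i ≤ k.1 ∧ k.1 ≤ i := by
  simp [rI]

theorem U_Reg {M i : ℤ} (hi : 0 ≤ i) (hM : 3 * i + 2 ≤ M) :
    U (Reg M i) = ⋃ k ∈ rI i, rect (rA M i k) (rB M i k) (rC k) (3 * i + 1) := by
  have h1 : ∀ k ∈ rI i, rect (rA M i k) (rB M i k) (rC k) (3 * i + 1) =
      U {p | rA M i k ≤ p.1 ∧ p.1 < rB M i k ∧ rC k ≤ p.2 ∧ p.2 < 3 * i + 1} := by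
    rintro ⟨b, β⟩ hk
    rw [mem_rI] at hk
    simp only at hk
    apply rect_eq_U
    · unfold rA rB
      simp only
      have : 0 < cond β (2 * M) (2 * M - 1) := by cases β <;> simp <;> omega
      exact mul_lt_mul_of_pos_right (by omega) this
    · unfold rC
      simp only
      cases β <;> simp <;> omega
  rw [iUnion₂_congr h1]
  have h2 := U_iUnion (↑(rI i) : Set (ℤ × Bool))
    (fun k => {p : ℤ × ℤ | rA M i k ≤ p.1 ∧ p.1 < rB M i k ∧ rC k ≤ p.2 ∧ p.2 < 3 * i + 1})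
  simp only [Finset.mem_coe] at h2
  rw [← h2]
  congr 1
  ext ⟨x, y⟩
  simp only [mem_iUnion, exists_prop, Prod.exists, mem_rI, mem_ofPred_eq, Reg, Bool.exists_bool, rA, rB,
    rC, cond_true, cond_false]
  constructor
  · rintro ⟨b, hb1, hb2, ⟨hy, k1, k2⟩ | ⟨hy, k1, k2⟩⟩
    · exact ⟨b, Or.inr ⟨⟨hb1, hb2⟩, k1, k2, by omega, by omega⟩⟩
    · exact ⟨b, Or.inl ⟨⟨hb1, hb2⟩, k1, k2, by omega, by omega⟩⟩
  · rintro ⟨b, ⟨⟨hb1, hb2⟩, k1, k2, k3, k4⟩ | ⟨⟨hb1, hb2⟩, k1, k2, k3, k4⟩⟩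
    · -- a rectangle ending with a row of tiles of type `Q`
      obtain ⟨b', c, hb', hc0, hc1⟩ : ∃ b' c : ℤ, y = 3 * b' - c ∧ 0 ≤ c ∧ c ≤ 2 :=
        ⟨(y + 2) / 3, 3 * ((y + 2) / 3) - y, by ring, by omega, by omega⟩
      have hbb : b ≤ b' := by omega
      have e1 : (2 * i + b) * (2 * M - 1) ≤ (2 * i + b') * (2 * M - 1) :=
        mul_le_mul_of_nonneg_right (by omega) (by omega)
      have e2 : (2 * i + b + 1) * (2 * M - 1) ≤ (2 * i + b' + 1) * (2 * M - 1) :=
        mul_le_mul_of_nonneg_right (by omega) (by omega)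
      have e3 : (2 * i + b') * (2 * M - 1) ≤ (2 * i + b') * (2 * M) :=
        mul_le_mul_of_nonneg_left (by omega) (by omega)
      have e4 : (2 * i + b' + 1) * (2 * M - 1) ≤ (2 * i + b' + 1) * (2 * M) :=
        mul_le_mul_of_nonneg_left (by omega) (by omega)
      rw [neg_mul] at k1
      refine ⟨b', by omega, by omega, ?_⟩
      rcases eq_or_ne c 2 with hc | hc
      · right
        refine ⟨by omega, ?_, by linarith⟩
        rw [neg_mul]; linarith
      · left
        refine ⟨by omega, ?_, by linarith⟩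
        rw [neg_mul]; linarith
    · -- a rectangle ending with a layer
      obtain ⟨b', c, hb', hc0, hc1⟩ : ∃ b' c : ℤ, y = 3 * b' - c ∧ 0 ≤ c ∧ c ≤ 2 :=
        ⟨(y + 2) / 3, 3 * ((y + 2) / 3) - y, by ring, by omega, by omega⟩
      rw [neg_mul] at k1
      rcases eq_or_ne c 2 with hc | hc
      · have hbb : b + 1 ≤ b' := by omega
        have e1 : (2 * i + b + 1) * (2 * M - 1) ≤ (2 * i + b') * (2 * M - 1) :=
          mul_le_mul_of_nonneg_right (by omega) (by omega)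
        have e2 : (2 * i + b + 2) * (2 * M - 1) ≤ (2 * i + b' + 1) * (2 * M - 1) :=
          mul_le_mul_of_nonneg_right (by omega) (by omega)
        have e3 : (2 * i + b + 1) * (2 * M - 1) = (2 * i + b) * (2 * M) + (2 * M - 1 - (2 * i + b)) := by
          ring
        have e4 : (2 * i + b + 2) * (2 * M - 1) =
          (2 * i + b + 1) * (2 * M) + (2 * M - 2 - (2 * i + b)) := by ring
        refine ⟨b', by omega, by omega, Or.inr ⟨by omega, ?_, by linarith⟩⟩
        rw [neg_mul]; linarith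
      · have hbb : b ≤ b' := by omega
        have e1 : (2 * i + b) * (2 * M) ≤ (2 * i + b') * (2 * M) :=
          mul_le_mul_of_nonneg_right (by omega) (by omega)
        have e2 : (2 * i + b + 1) * (2 * M) ≤ (2 * i + b' + 1) * (2 * M) :=
          mul_le_mul_of_nonneg_right (by omega) (by omega)
        refine ⟨b', by omega, by omega, Or.inl ⟨by omega, ?_, by linarith⟩⟩
        rw [neg_mul]; linarith

/-- The region of a level is a closed disc. -/
theorem disc_Reg {M i : ℤ} (hi : 0 ≤ i) (hM : 3 * i + 2 ≤ M) :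
    Nonempty (U (Reg M i) ≃ₜ closedBall (0 : ℂ) 1) := by
  rw [U_Reg hi hM]
  refine disc_rects (I := rI i) (a := rA M i) (b := rB M i) (c := rC) (d := fun _ => 3 * i + 1)
    (o := ⟨1 / 2, 3 * i + 1 / 2⟩) ⟨(i, true), mem_rI.2 ⟨?_, le_rfl⟩⟩ ?_
  · simp only; omega
  · rintro ⟨b, β⟩ hk
    rw [mem_rI] at hk
    simp only at hk
    have hN : 0 < cond β (2 * M) (2 * M - 1) := by cases β <;> simp <;> omega
    have h1 : rA M i (b, β) ≤ 0 := by
      unfold rA
      rw [neg_mul]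
      have := mul_nonneg (show 0 ≤ 2 * i + b by omega) hN.le
      simp only
      omega
    have h2 : 1 ≤ rB M i (b, β) := by
      unfold rB
      simp only
      have := mul_pos (show 0 < 2 * i + b + 1 by omega) hN
      omega
    have h3 : rC (b, β) ≤ 3 * i := by
      unfold rC
      simp only
      cases β <;> simp <;> omega
    have h1' : (rA M i (b, β) : ℝ) ≤ 0 := by exact_mod_cast h1
    have h2' : (1 : ℝ) ≤ rB M i (b, β) := by exact_mod_cast h2
    have h3' : (rC (b, β) : ℝ) ≤ 3 * i := by exact_mod_cast h3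
    refine ⟨?_, ?_, ?_, ?_⟩
    · simp only; linarith
    · simp only; linarith
    · simp only; linarith
    · push_cast; linarith

/-- The region of a level lies in the interior of the region of the next level. -/
theorem Reg_subset_interior {M i : ℤ} (hi : 0 ≤ i) (hM : 3 * (i + 1) + 2 ≤ M) :
    U (Reg M i) ⊆ interior (U (Reg M (i + 1))) := by
  rw [U_Reg hi (by omega), U_Reg (by omega) hM]
  intro z hz
  simp only [mem_iUnion, exists_prop] at hz
  obtain ⟨⟨b, β⟩, hk, hz⟩ := hz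
  rw [mem_rI] at hk
  simp only at hk
  have hk' : (b - 1, true) ∈ rI (i + 1) := by
    rw [mem_rI]; simp only; omega
  refine mem_interior.2 ⟨orect (rA M (i + 1) (b - 1, true)) (rB M (i + 1) (b - 1, true))
    (rC (b - 1, true)) (3 * (i + 1) + 1), ?_, isOpen_orect _ _ _ _, ?_⟩
  · intro w hw
    simp only [mem_iUnion, exists_prop]
    exact ⟨_, hk', orect_subset _ _ _ _ hw⟩
  · have hN : cond β (2 * M) (2 * M - 1) ≤ 2 * M := by cases β <;> simp
    have hn : (0 : ℤ) ≤ 2 * i + b := by omega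
    have a1 : rA M (i + 1) (b - 1, true) < rA M i (b, β) := by
      unfold rA
      simp only [cond_true]
      have := mul_le_mul_of_nonneg_left hN hn
      have e : -(2 * (i + 1) + (b - 1)) * (2 * M) = -((2 * i + b) * (2 * M)) - 2 * M := by ring
      rw [e, neg_mul]
      omega
    have a2 : rB M i (b, β) < rB M (i + 1) (b - 1, true) := by
      unfold rB
      simp only [cond_true]
      have := mul_le_mul_of_nonneg_left hN (show (0 : ℤ) ≤ 2 * i + b + 1 by omega)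
      have e : (2 * (i + 1) + (b - 1) + 1) * (2 * M) = (2 * i + b + 1) * (2 * M) + 2 * M := by ring
      rw [e]
      omega
    have a3 : rC (b - 1, true) < rC (b, β) := by
      unfold rC
      cases β <;> simp only [cond_true, cond_false] <;> omega
    obtain ⟨z1, z2, z3, z4⟩ := hz
    have a1' : (rA M (i + 1) (b - 1, true) : ℝ) < rA M i (b, β) := by exact_mod_cast a1
    have a2' : (rB M i (b, β) : ℝ) < rB M (i + 1) (b - 1, true) := by exact_mod_cast a2
    have a3' : (rC (b - 1, true) : ℝ) < rC (b, β) := by exact_mod_cast a3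
    refine ⟨by linarith, by linarith, by linarith, ?_⟩
    push_cast at z4 ⊢
    linarith

end Pool.Agent.V11268.AE
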