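import Mathlib
import Pool.Agent.V11268.AE.A5

set_option autoImplicit false

/-!
# The families of tiles of the patches
-/

namespace Pool.Agent.V11268.AE

open Set Metric Topology

open Ty

/-- The tile of type `t` at the position `(a, 3 b)`. -/
noncomputable def plc (M : ℤ) (t : Ty) (a b : ℤ) : Set ℂ := Phi '' U (cells M t a b)

theorem plc_eq (M : ℤ) (t : Ty) (a b : ℤ) :
    plc M t a b = IsometryEquiv.addRight (vec a (3 * b)) '' tile M t := by
  have h1 : U (cells M t a b) = (fun z => z + vec a (3 * b)) '' U (base M t) :=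
    (U_translate (base M t) a (3 * b)).symm
  rw [plc, h1, tile, image_image, image_image]
  apply image_congr
  intro z _
  rw [Phi_add]
  rfl

/-- The family of tiles of level `i`. -/
def fam (M i : ℤ) : Set (Set ℂ) := {T | ∃ t a b, Valid M i t a b ∧ T = plc M t a b}

theorem valid_bounds {M i : ℤ} (hi : 0 ≤ i) (hM : 3 * i + 2 ≤ M) {t : Ty} {a b : ℤ}
    (h : Valid M i t a b) : (-((3 * i + 1) * (2 * M)) ≤ a ∧ a ≤ (3 * i + 1) * (2 * M)) ∧
      -i ≤ b ∧ b ≤ i := by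
  have key : ∀ j N : ℤ, 0 ≤ N → N ≤ 2 * M → -(3 * i) ≤ j → j ≤ 3 * i →
      -((3 * i + 1) * (2 * M)) ≤ j * N ∧ j * N ≤ (3 * i + 1) * (2 * M) := by
    intro j N h0 h1 h2 h3
    have e1 : -(3 * i) * N ≤ j * N := mul_le_mul_of_nonneg_right h2 h0
    have e2 : j * N ≤ 3 * i * N := mul_le_mul_of_nonneg_right h3 h0
    have e3 : 3 * i * N ≤ (3 * i + 1) * (2 * M) := mul_le_mul (by omega) h1 h0 (by omega)
    rw [neg_mul] at e1
    constructor <;> linarith
  cases t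
  · obtain ⟨h1, h2, j, rfl, h3, h4⟩ := h
    exact ⟨key j _ (by omega) (by omega) (by omega) (by omega), h1, h2⟩
  · obtain ⟨h1, h2, j, rfl, h3, h4⟩ := h
    exact ⟨key j _ (by omega) (by omega) (by omega) (by omega), h1, h2⟩
  · obtain ⟨h1, h2, h3, h4, -, -⟩ := h
    have e1 : (2 * i + b) * (2 * M) ≤ (3 * i + 1) * (2 * M) :=
      mul_le_mul_of_nonneg_right (by omega) (by omega)
    have e2 : (2 * i + b + 1) * (2 * M) ≤ (3 * i + 1) * (2 * M) :=
      mul_le_mul_of_nonneg_right (by omega) (by omega)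
    rw [neg_mul] at h3
    exact ⟨⟨by linarith, by linarith⟩, h1, h2⟩

theorem fam_finite {M i : ℤ} (hi : 0 ≤ i) (hM : 3 * i + 2 ≤ M) : (fam M i).Finite := by
  have hfin : ((univ : Set Ty) ×ˢ (Icc (-((3 * i + 1) * (2 * M))) ((3 * i + 1) * (2 * M)) ×ˢ
      Icc (-i) i)).Finite :=
    finite_univ.prod ((finite_Icc _ _).prod (finite_Icc _ _))
  refine (hfin.image (fun x => plc M x.1 x.2.1 x.2.2)).subset ?_
  rintro T ⟨t, a, b, h, rfl⟩
  obtain ⟨h1, h2⟩ := valid_bounds hi hM h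
  exact ⟨(t, a, b), ⟨mem_univ _, h1, h2⟩, rfl⟩

theorem fam_disjoint {M i : ℤ} (hM : 3 * i + 2 ≤ M) : ∀ T ∈ fam M i, ∀ T' ∈ fam M i, T ≠ T' →
    Disjoint (interior T) (interior T') := by
  rintro T ⟨t, a, b, h, rfl⟩ T' ⟨t', a', b', h', rfl⟩ hne
  have hd : Disjoint (cells M t a b) (cells M t' a' b') := by
    rw [Set.disjoint_left]
    intro p hp hp'
    obtain ⟨rfl, rfl, rfl⟩ := index_unique hM h h' hp hp'
    exact hne rfl
  rw [plc, plc, ← Phi.image_interior, ← Phi.image_interior]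
  exact (disjoint_interior_U hd).image Phi.injective.injOn (subset_univ _) (subset_univ _)

theorem sUnion_fam {M i : ℤ} (hi : 0 ≤ i) (hM : 3 * i + 2 ≤ M) :
    ⋃₀ fam M i = Phi '' U (Reg M i) := by
  ext z
  rw [mem_sUnion, mem_image]
  constructor
  · rintro ⟨T, ⟨t, a, b, h, rfl⟩, w, hw, rfl⟩
    exact ⟨w, U_mono (cells_subset_Reg hi hM h) hw, rfl⟩
  · rintro ⟨w, hw, rfl⟩
    obtain ⟨p, hp, hwp⟩ := mem_U.1 hw
    obtain ⟨t, a, b, h, hpc⟩ := Reg_subset_cells hi hM hp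
    exact ⟨_, ⟨t, a, b, h, rfl⟩, w, mem_U.2 ⟨p, hpc, hwp⟩, rfl⟩

theorem fam_disc {M i : ℤ} (hi : 0 ≤ i) (hM : 3 * i + 2 ≤ M) :
    Nonempty ((⋃₀ fam M i : Set ℂ) ≃ₜ closedBall (0 : ℂ) 1) := by
  rw [sUnion_fam hi hM]
  exact disc_image Phi (disc_Reg hi hM)

theorem fam_interior {M i : ℤ} (hi : 0 ≤ i) (hM : 3 * (i + 1) + 2 ≤ M) :
    ⋃₀ fam M i ⊆ interior (⋃₀ fam M (i + 1)) := by
  rw [sUnion_fam hi (by omega), sUnion_fam (by omega) hM, ← Phi.image_interior]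
  exact image_mono (Reg_subset_interior hi hM)

theorem valid_mono {M i : ℤ} (hi : 0 ≤ i) (hM : 0 ≤ M) {t : Ty} {a b : ℤ} (h : Valid M i t a b) :
    Valid M (i + 1) t a b := by
  cases t
  · obtain ⟨h1, h2, j, rfl, h3, h4⟩ := h
    exact ⟨by omega, by omega, j, rfl, by omega, by omega⟩
  · obtain ⟨h1, h2, j, rfl, h3, h4⟩ := h
    exact ⟨by omega, by omega, j, rfl, by omega, by omega⟩
  · obtain ⟨h1, h2, h3, h4, h5, h6⟩ := h
    have e1 : (2 * i + b) * (2 * M) ≤ (2 * (i + 1) + b) * (2 * M) :=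
      mul_le_mul_of_nonneg_right (by omega) (by omega)
    have e2 : (2 * i + b + 1) * (2 * M) ≤ (2 * (i + 1) + b + 1) * (2 * M) :=
      mul_le_mul_of_nonneg_right (by omega) (by omega)
    rw [neg_mul] at h3
    refine ⟨by omega, by omega, ?_, by linarith, h5, h6⟩
    rw [neg_mul]
    linarith

theorem fam_mono {M i : ℤ} (hi : 0 ≤ i) (hM : 0 ≤ M) : fam M i ⊆ fam M (i + 1) := by
  rintro T ⟨t, a, b, h, rfl⟩
  exact ⟨t, a, b, valid_mono hi hM h, rfl⟩

/-- Every type of tile occurs in the patch of level `0`. -/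
theorem exists_fam_zero {M : ℤ} (hM : 2 < M) (t : Ty) :
    ∃ a : ℤ, plc M t a 0 ∈ fam M 0 := by
  cases t
  · exact ⟨0, P, 0, 0, ⟨by omega, by omega, 0, by ring, by omega, by omega⟩, rfl⟩
  · exact ⟨0, Q, 0, 0, ⟨by omega, by omega, 0, by ring, by omega, by omega⟩, rfl⟩
  · refine ⟨1, F, 1, 0, ⟨by omega, by omega, by omega, by omega, ?_, ?_⟩, rfl⟩
    · rintro ⟨j, hj⟩
      rcases le_or_gt j 0 with h | h
      · nlinarith
      · nlinarith
    · rintro ⟨j, hj⟩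
      rcases le_or_gt j (-1) with h | h
      · nlinarith
      · nlinarith

end Pool.Agent.V11268.AE
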