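import Mathlib
import Pool.Agent.V11268.AE.A1

set_option autoImplicit false

/-!
# Rigidity of the marks
-/

namespace Pool.Agent.V11268.AE

open Set Metric Topology Polynomial

/-- Every isometry of the plane in coordinates. -/
theorem isometry_form (h : ℂ ≃ᵢ ℂ) : ∃ u v e m n : ℝ, u ^ 2 + v ^ 2 = 1 ∧ (e = 1 ∨ e = -1) ∧
    ∀ z, (h z).re = u * z.re - e * v * z.im + m ∧ (h z).im = v * z.re + e * u * z.im + n := by
  set f := h.toRealLinearIsometryEquiv with hf
  have hfz : ∀ z, h z = f z + h 0 := by
    intro z
    rw [hf]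
    simp [IsometryEquiv.toRealLinearIsometryEquiv]
  obtain ⟨a, ha⟩ := linear_isometry_complex f
  have hn : (a : ℂ).re ^ 2 + (a : ℂ).im ^ 2 = 1 := by
    have h1 : Complex.normSq (a : ℂ) = 1 := by simp
    rw [Complex.normSq_apply] at h1
    linarith
  rcases ha with ha | ha
  · refine ⟨(a : ℂ).re, (a : ℂ).im, 1, (h 0).re, (h 0).im, hn, Or.inl rfl, ?_⟩
    intro z
    rw [hfz z, ha]
    constructor
    · simp [rotation_apply]
    · simp [rotation_apply]; ring
  · refine ⟨(a : ℂ).re, (a : ℂ).im, -1, (h 0).re, (h 0).im, hn, Or.inr rfl, ?_⟩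
    intro z
    rw [hfz z, ha]
    constructor
    · simp [rotation_apply]
    · simp [rotation_apply]; ring

/-- The quartic as a polynomial. -/
noncomputable def Qp : ℝ[X] := X ^ 3 * (1 - X)

@[simp] theorem eval_Qp (s : ℝ) : Qp.eval s = q s := by
  simp [Qp, q]

theorem Qp_eq : Qp = X ^ 3 - X ^ 4 := by unfold Qp; ring

theorem natDegree_Qp : Qp.natDegree = 4 := by
  rw [Qp_eq]; compute_degree!

theorem poly_zero {P : ℝ[X]} {S : Set ℝ} (hS : S.Infinite) (h : ∀ s ∈ S, P.eval s = 0) : P = 0 :=
  P.eq_zero_of_infinite_isRoot (hS.mono h)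

theorem line_aux {α β δ : ℝ} {S : Set ℝ} (hS : S.Infinite)
    (h : ∀ s ∈ S, α * s + β * q s + δ = 0) : α = 0 ∧ β = 0 := by
  have hP : C α * X + C β * Qp + C δ = 0 := by
    apply poly_zero hS
    intro s hs
    simpa using h s hs
  have he : ∀ s : ℝ, α * s + β * q s + δ = 0 := by
    intro s
    have := congrArg (eval s) hP
    simpa using this
  have h0 := he 0
  have h1 := he 1
  have h2 := he (-1)
  unfold q at h0 h1 h2
  constructor <;> linarith

theorem not_line_re {h : ℂ ≃ᵢ ℂ} {c k : ℝ} (hc : 0 < c) {S : Set ℝ} (hS : S.Infinite)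
    (H : ∀ s ∈ S, (h (gam c s)).re = k) : False := by
  obtain ⟨u, v, e, m, n, huv, he, hz⟩ := isometry_form h
  have := line_aux (α := u) (β := -(e * v * c)) (δ := m - k) hS (by
    intro s hs
    have := H s hs
    rw [(hz _).1, gam_re, gam_im] at this
    linarith)
  obtain ⟨h1, h2⟩ := this
  have he0 : e ≠ 0 := by rcases he with h | h <;> rw [h] <;> norm_num
  have hv : v = 0 := by
    have : e * v * c = 0 := by linarith
    rcases mul_eq_zero.1 this with h | h
    · rcases mul_eq_zero.1 h with h | h
      · exact absurd h he0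
      · exact h
    · exact absurd h hc.ne'
  rw [h1, hv] at huv
  norm_num at huv

theorem not_line_im {h : ℂ ≃ᵢ ℂ} {c k : ℝ} (hc : 0 < c) {S : Set ℝ} (hS : S.Infinite)
    (H : ∀ s ∈ S, (h (gam c s)).im = k) : False := by
  obtain ⟨u, v, e, m, n, huv, he, hz⟩ := isometry_form h
  have := line_aux (α := v) (β := e * u * c) (δ := n - k) hS (by
    intro s hs
    have := H s hs
    rw [(hz _).2, gam_re, gam_im] at this
    linarith)
  obtain ⟨h1, h2⟩ := this
  have he0 : e ≠ 0 := by rcases he with h | h <;> rw [h] <;> norm_num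
  have hv : u = 0 := by
    have : e * u * c = 0 := by linarith
    rcases mul_eq_zero.1 this with h | h
    · rcases mul_eq_zero.1 h with h | h
      · exact absurd h he0
      · exact h
    · exact absurd h hc.ne'
  rw [h1, hv] at huv
  norm_num at huv

/-- Two marks which share infinitely many points are equal. -/
theorem rigid {h : ℂ ≃ᵢ ℂ} {c c' : ℝ} (hc : 0 < c) (hc' : 0 < c') {S : Set ℝ} (hS : S.Infinite)
    (H : ∀ s ∈ S, (h (gam c s)).im = c' * q (h (gam c s)).re) : c = c' ∧ ∀ z, h z = z := by
  obtain ⟨u, v, e, m, n, huv, he, hz⟩ := isometry_form h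
  have he0 : e ≠ 0 := by rcases he with h | h <;> rw [h] <;> norm_num
  have hP : C v * X + C (e * u * c) * Qp + C n -
      C c' * Qp.comp (C u * X - C (e * v * c) * Qp + C m) = 0 := by
    apply poly_zero hS
    intro s hs
    have := H s hs
    rw [(hz _).1, (hz _).2, gam_re, gam_im] at this
    simp only [eval_sub, eval_add, eval_mul, eval_C, eval_X, eval_comp, eval_Qp]
    have e1 : u * s - e * v * c * q s + m = u * s - e * v * (c * q s) + m := by ring
    rw [e1]
    linarith
  have hv : v = 0 := by
    by_contra hv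
    have hevc : e * v * c ≠ 0 := mul_ne_zero (mul_ne_zero he0 hv) hc.ne'
    have hX : (C u * X - C (e * v * c) * Qp + C m).natDegree = 4 := by
      have : C u * X - C (e * v * c) * Qp + C m =
        C (e * v * c) * X ^ 4 + (-C (e * v * c) * X ^ 3 + C u * X + C m) := by
        rw [Qp_eq]; ring
      rw [this]
      compute_degree!
      exact ⟨⟨he0, hv⟩, hc.ne'⟩
    have h1 : (C c' * Qp.comp (C u * X - C (e * v * c) * Qp + C m)).natDegree = 16 := by
      rw [natDegree_C_mul hc'.ne', natDegree_comp, natDegree_Qp, hX]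
    have h2 : (C v * X + C (e * u * c) * Qp + C n).natDegree ≤ 4 := by
      rw [Qp_eq]
      compute_degree
    rw [sub_eq_zero] at hP
    rw [← hP] at h1
    omega
  have hu : u ^ 2 = 1 := by rw [hv] at huv; linarith
  have heq : ∀ s : ℝ, e * u * c * q s + n - c' * q (u * s + m) = 0 := by
    intro s
    have := congrArg (eval s) hP
    simp only [eval_sub, eval_add, eval_mul, eval_C, eval_X, eval_comp, eval_Qp, hv, eval_zero] at this
    rw [← this]
    ring_nf
  have f0 := heq 0
  have f1 := heq 1
  have f2 := heq (-1)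
  have f3 := heq 2
  have f4 := heq (-2)
  unfold q at f0 f1 f2 f3 f4
  have hu' : u = 1 ∨ u = -1 := by
    have : (u - 1) * (u + 1) = 0 := by linarith
    rcases mul_eq_zero.1 this with h | h
    · left; linarith
    · right; linarith
  rcases hu' with rfl | rfl
  · -- no reflection in the direction of the edge
    have a4 : c' = e * c := by linarith
    have a3 : c' * m = 0 := by
      subst a4
      linarith
    have hm : m = 0 := by
      rcases mul_eq_zero.1 a3 with h | h
      · exact absurd h hc'.ne'
      · exact h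
    subst hm
    have hn : n = 0 := by linarith
    have he1 : e = 1 := by
      rcases he with h | h
      · exact h
      · exfalso; rw [h] at a4; linarith
    subst he1
    refine ⟨by linarith, fun z => ?_⟩
    apply Complex.ext
    · rw [(hz z).1, hv]; ring
    · rw [(hz z).2, hv, hn]; ring
  · exfalso
    have a4 : c' = -(e * c) := by linarith
    have a3 : c' * (2 * m - 1) = 0 := by
      have : e * c = - c' := by linarith
      linarith
    have hm : m = 1 / 2 := by
      rcases mul_eq_zero.1 a3 with h | h
      · exact absurd h hc'.ne'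
      · linarith
    subst hm
    linarith

end Pool.Agent.V11268.AE
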