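import Mathlib
import Pool.Agent.V11268.AE.A2
import Pool.Agent.V11268.AE.A4

set_option autoImplicit false

/-!
# Neighbours in a tiling
-/

namespace Pool.Agent.V11268.AE

open Set Metric Topology

open Ty

/-! ### Local finiteness -/

theorem locally_finite {𝒯 : Set (Set ℂ)} {r D : ℝ} (hr : 0 < r)
    (h : ∀ T ∈ 𝒯, ∃ x, ball x r ⊆ interior T ∧ ∀ y ∈ T, dist y x ≤ D)
    (hd : ∀ T ∈ 𝒯, ∀ T' ∈ 𝒯, T ≠ T' → Disjoint (interior T) (interior T')) {B : Set ℂ}
    (hB : Bornology.IsBounded B) : {T | T ∈ 𝒯 ∧ (T ∩ B).Nonempty}.Finite := by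
  choose! x hx1 hx2 using h
  obtain ⟨R, hR⟩ := (Metric.isBounded_iff_subset_closedBall 0).1 hB
  have htb := (isCompact_closedBall (0 : ℂ) (D + R)).totallyBounded
  obtain ⟨t, ht, hcov⟩ := Metric.totallyBounded_iff.1 htb (r / 2) (by positivity)
  have hmem : ∀ T ∈ {T | T ∈ 𝒯 ∧ (T ∩ B).Nonempty}, ∃ y ∈ t, dist (x T) y < r / 2 := by
    rintro T ⟨hT, y, hy1, hy2⟩
    have h1 : x T ∈ closedBall (0 : ℂ) (D + R) := by
      have h2 := hx2 T hT y hy1
      have h3 := hR hy2
      rw [mem_closedBall] at h3 ⊢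
      have h4 := dist_triangle (x T) y 0
      rw [dist_comm (x T) y] at h4
      linarith
    have h5 := hcov h1
    simp only [mem_iUnion, mem_ball, exists_prop] at h5
    exact h5
  choose! y hy1 hy2 using hmem
  refine Set.Finite.of_injOn (f := y) (t := t) (fun T hT => hy1 T hT) ?_ ht
  intro T hT T' hT' he
  by_contra hne
  have h1 := hy2 T hT
  have h2 := hy2 T' hT'
  have he' : y T = y T' := he
  rw [he'] at h1
  have h3 : dist (x T) (x T') < r := by
    have := dist_triangle_right (x T) (x T') (y T')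
    linarith
  exact Set.disjoint_left.1 (hd T hT.1 T' hT'.1 hne) (hx1 T hT.1 (mem_ball_self hr))
    (hx1 T' hT'.1 h3)

/-- Infinitely many points on the boundary of a tile are shared with another tile. -/
theorem neighbour {𝒯 : Set (Set ℂ)} {r D : ℝ} (hr : 0 < r)
    (h : ∀ T ∈ 𝒯, ∃ x, ball x r ⊆ interior T ∧ ∀ y ∈ T, dist y x ≤ D)
    (hd : ∀ T ∈ 𝒯, ∀ T' ∈ 𝒯, T ≠ T' → Disjoint (interior T) (interior T'))
    (hc : ∀ T ∈ 𝒯, IsClosed T) (hcov : ⋃₀ 𝒯 = univ) {T : Set ℂ} {Γ : Set ℂ}
    (hΓ : Γ.Infinite) (hB : Bornology.IsBounded Γ) (hΓT : ∀ z ∈ Γ, z ∉ interior T) :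
    ∃ T' ∈ 𝒯, T' ≠ T ∧ (Γ ∩ T').Infinite := by
  have hpt : ∀ z ∈ Γ, ∃ T' ∈ 𝒯, T' ≠ T ∧ z ∈ T' := by
    intro z hz
    by_contra hcon
    push Not at hcon
    have hfin := locally_finite hr h hd (isBounded_closedBall (x := z) (r := 1))
    have hfin' : {T' | (T' ∈ 𝒯 ∧ (T' ∩ closedBall z 1).Nonempty) ∧ T' ≠ T}.Finite :=
      hfin.subset (fun T' hT' => hT'.1)
    have hcl : IsClosed (⋃₀ {T' | (T' ∈ 𝒯 ∧ (T' ∩ closedBall z 1).Nonempty) ∧ T' ≠ T}) :=
by
      rw [sUnion_eq_biUnion]
      exact hfin'.isClosed_biUnion (fun T' hT' => hc T' hT'.1.1)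
    have hz' : z ∉ ⋃₀ {T' | (T' ∈ 𝒯 ∧ (T' ∩ closedBall z 1).Nonempty) ∧ T' ≠ T} := by
      rintro ⟨T', hT', hzT'⟩
      exact hcon T' hT'.1.1 hT'.2 hzT'
    have hnb := Filter.inter_mem (hcl.isOpen_compl.mem_nhds hz') (ball_mem_nhds z one_pos)
    refine hΓT z hz (mem_interior_iff_mem_nhds.2 (Filter.mem_of_superset hnb ?_))
    rintro w ⟨hw1, hw2⟩
    have hwc : w ∈ ⋃₀ 𝒯 := by rw [hcov]; trivial
    obtain ⟨T', hT', hwT'⟩ := hwc
    by_cases hTT : T' = T
    · rwa [hTT] at hwT'
    · exact absurd ⟨T', ⟨⟨hT', w, hwT', ball_subset_closedBall hw2⟩, hTT⟩, hwT'⟩ hw1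
  by_contra hcon
  push Not at hcon
  have hfin := locally_finite hr h hd hB
  refine hΓ ((hfin.biUnion (t := fun T' => if T' = T then ∅ else Γ ∩ T') ?_).subset ?_)
  · rintro T' ⟨hT', -⟩
    split_ifs with h1
    · exact finite_empty
    · exact hcon T' hT' h1
  · intro z hz
    obtain ⟨T', hT', hne, hzT'⟩ := hpt z hz
    simp only [mem_iUnion, exists_prop]
    refine ⟨T', ⟨hT', z, hzT', hz⟩, ?_⟩
    rw [if_neg hne]
    exact ⟨hz, hzT'⟩

/-! ### Properties of the tiles -/

theorem isClosed_base {M : ℤ} (hM : 1 < M) (t : Ty) : IsCompact (U (base M t)) := by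
  cases t
  · rw [U_P hM]; exact (isCompact_rect _ _ _ _).union (isCompact_rect _ _ _ _)
  · rw [U_Q hM]; exact (isCompact_rect _ _ _ _).union (isCompact_rect _ _ _ _)
  · rw [U_F]; exact isCompact_rect _ _ _ _

theorem isCompact_tile {M : ℤ} (hM : 1 < M) (t : Ty) : IsCompact (tile M t) :=
  (isClosed_base hM t).image Phi.continuous

theorem closure_interior_U {A : Set (ℤ × ℤ)} : U A ⊆ closure (interior (U A)) := by
  intro z hz
  obtain ⟨p, hp, hz⟩ := mem_U.1 hz
  rw [← closure_orect (by omega) (by omega)] at hz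
  refine closure_mono ?_ hz
  apply interior_maximal _ (isOpen_orect _ _ _ _)
  intro w hw
  exact mem_U.2 ⟨p, hp, orect_subset _ _ _ _ hw⟩

theorem closure_interior_tile (M : ℤ) (t : Ty) (g : ℂ ≃ᵢ ℂ) :
    g '' tile M t ⊆ closure (interior (g '' tile M t)) := by
  have h1 : interior (g '' tile M t) = g '' interior (tile M t) :=
    (g.toHomeomorph.image_interior _).symm
  have h2 : closure (g '' interior (tile M t)) = g '' closure (interior (tile M t)) :=
    (g.toHomeomorph.image_closure _).symm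
  rw [h1, h2]
  apply image_mono
  rw [tile, ← Phi.image_interior, ← Phi.image_closure]
  exact image_mono closure_interior_U

theorem interior_image_tile (M : ℤ) (t : Ty) (g : ℂ ≃ᵢ ℂ) :
    interior (g '' tile M t) = g '' (Phi '' interior (U (base M t))) := by
  have h1 : interior (g '' tile M t) = g '' interior (tile M t) :=
    (g.toHomeomorph.image_interior _).symm
  rw [h1, tile, Phi.image_interior]

theorem base_nonempty (M : ℤ) (t : Ty) : (base M t).Nonempty := by
  cases t
  · exact ⟨(0, -1), Or.inr ⟨rfl, rfl⟩⟩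
  · exact ⟨(M, -1), Or.inr ⟨rfl, rfl⟩⟩
  · exact ⟨(0, -1), rfl, rfl⟩

/-- Uniform inner balls and diameters. -/
theorem exists_r_D {M : ℤ} (hM : 1 < M) : ∃ r D : ℝ, 0 < r ∧ ∀ t : Ty, ∀ g : ℂ ≃ᵢ ℂ,
    ∃ x, ball x r ⊆ interior (g '' tile M t) ∧ ∀ y ∈ g '' tile M t, dist y x ≤ D := by
  have h1 : ∀ t : Ty, ∃ x r D, 0 < r ∧ ball x r ⊆ interior (tile M t) ∧
      ∀ y ∈ tile M t, dist y x ≤ D := by
    intro t
    obtain ⟨p, hp⟩ := base_nonempty M t
    have hne : (interior (tile M t)).Nonempty := by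
      rw [tile, ← Phi.image_interior]
      exact ⟨_, _, center_mem_interior hp, rfl⟩
    obtain ⟨x, hx⟩ := hne
    obtain ⟨r, hr, hb⟩ := Metric.isOpen_iff.1 isOpen_interior x hx
    obtain ⟨D, hD⟩ := (Metric.isBounded_iff_subset_closedBall x).1 (isCompact_tile hM t).isBounded
    exact ⟨x, r, D, hr, hb, fun y hy => hD hy⟩
  choose x r D hr hb hD using h1
  refine ⟨min (r P) (min (r Q) (r F)), max (D P) (max (D Q) (D F)),
    lt_min (hr P) (lt_min (hr Q) (hr F)), ?_⟩
  intro t g
  refine ⟨g (x t), ?_, ?_⟩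
  · have e : interior (g '' tile M t) = g '' interior (tile M t) :=
      (g.toHomeomorph.image_interior _).symm
    rw [e]
    intro y hy
    obtain ⟨y, rfl⟩ := g.surjective y
    rw [mem_ball, g.dist_eq] at hy
    refine ⟨y, hb t ?_, rfl⟩
    rw [mem_ball]
    refine hy.trans_le ?_
    cases t
    · exact min_le_left _ _
    · exact (min_le_right _ _).trans (min_le_left _ _)
    · exact (min_le_right _ _).trans (min_le_right _ _)
  · rintro _ ⟨y, hy, rfl⟩
    rw [g.dist_eq]
    refine (hD t y hy).trans ?_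
    cases t
    · exact le_max_left _ _
    · exact (le_max_left _ _).trans (le_max_right _ _)
    · exact (le_max_right _ _).trans (le_max_right _ _)

/-! ### The pieces of the boundary -/

/-- The reflection in the diagonal. -/
noncomputable def swapE : ℂ ≃ᵢ ℂ :=
  IsometryEquiv.mk' (fun z => ⟨z.im, z.re⟩) (fun z => ⟨z.im, z.re⟩) (fun z => rfl)
    (Isometry.of_dist_eq fun x y => by
      rw [Complex.dist_eq_re_im, Complex.dist_eq_re_im, add_comm])

/-- The position of an edge: horizontal (`false`) or vertical (`true`). -/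
noncomputable def place (β : Bool) (i j : ℤ) : ℂ ≃ᵢ ℂ :=
  (cond β swapE (IsometryEquiv.refl ℂ)).trans (IsometryEquiv.addRight (vec i j))

theorem place_false (i j : ℤ) (z : ℂ) : place false i j z = z + vec i j := rfl

theorem place_true (i j : ℤ) (z : ℂ) : place true i j z = ⟨z.im, z.re⟩ + vec i j := rfl

/-- The points of a marked edge. -/
def OnArc (β : Bool) (c : ℝ) (i j : ℤ) (w : ℂ) : Prop := ∃ s : ℝ, w = place β i j (gam c s)

/-- The straight pieces: `re z = k` (`true`) or `im z = k` (`false`). -/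
def OnLine (β : Bool) (k : ℤ) (w : ℂ) : Prop := cond β w.re w.im = k

/-- The marked edges of the tiles. -/
def Cp (M : ℤ) : Ty → Set (Bool × ℝ × ℤ × ℤ)
  | P => {e | e = (true, 1 / 20, 0, 0) ∨ e = (true, 1 / 20, 2 * M, 0) ∨ e = (false, 1 / 5, 0, -1) ∨
      ∃ i : ℤ, 1 ≤ i ∧ i < 2 * M ∧ e = (false, 3 / 20, i, 0)}
  | Q => {e | e = (true, 1 / 10, 0, -2) ∨ e = (true, 1 / 10, 2 * M - 1, -2) ∨
      e = (false, 3 / 20, M, 0) ∨
      ∃ i : ℤ, 0 ≤ i ∧ i < 2 * M - 1 ∧ e = (false, 1 / 5, i, -1)}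
  | F => {e | e = (false, 3 / 20, 0, 0) ∨ e = (false, 1 / 5, 0, -1)}

/-- The straight pieces of the boundaries. -/
def Sp (M : ℤ) : Ty → Set (Bool × ℤ)
  | P => {(false, 1), (true, 0), (true, 1)}
  | Q => {(false, -2), (true, M), (true, M + 1)}
  | F => {(true, 0), (true, 1)}

theorem Sp_finite (M : ℤ) (t : Ty) : (Sp M t).Finite := by
  cases t
  · exact Set.toFinite {((false, 1) : Bool × ℤ), (true, 0), (true, 1)}
  · exact Set.toFinite {((false, -2) : Bool × ℤ), (true, M), (true, M + 1)}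
  · exact Set.toFinite {((true, 0) : Bool × ℤ), (true, 1)}

theorem Cp_finite (M : ℤ) (t : Ty) : (Cp M t).Finite := by
  have key : ∀ (c : ℝ) (j : ℤ), {e : Bool × ℝ × ℤ × ℤ | ∃ i : ℤ, 0 ≤ i ∧ i < 2 * M ∧
      e = (false, c, i, j)}.Finite := by
    intro c j
    refine ((finite_Ico (0 : ℤ) (2 * M)).image (fun i => (false, c, i, j))).subset ?_
    rintro e ⟨i, h1, h2, rfl⟩
    exact ⟨i, ⟨h1, h2⟩, rfl⟩
  cases t
  · refine (((finite_singleton ((true, 1 / 20, 0, 0) : Bool × ℝ × ℤ × ℤ)).union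
      (finite_singleton (true, 1 / 20, 2 * M, 0))).union
      ((finite_singleton (false, 1 / 5, 0, -1)).union (key (3 / 20) 0))).subset ?_
    rintro e (rfl | rfl | rfl | ⟨i, h1, h2, rfl⟩)
    · exact Or.inl (Or.inl rfl)
    · exact Or.inl (Or.inr rfl)
    · exact Or.inr (Or.inl rfl)
    · exact Or.inr (Or.inr ⟨i, by omega, h2, rfl⟩)
  · refine (((finite_singleton ((true, 1 / 10, 0, -2) : Bool × ℝ × ℤ × ℤ)).union
      (finite_singleton (true, 1 / 10, 2 * M - 1, -2))).union
      ((finite_singleton (false, 3 / 20, M, 0)).union (key (1 / 5) (-1)))).subset ?_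
    rintro e (rfl | rfl | rfl | ⟨i, h1, h2, rfl⟩)
    · exact Or.inl (Or.inl rfl)
    · exact Or.inl (Or.inr rfl)
    · exact Or.inr (Or.inl rfl)
    · exact Or.inr (Or.inr ⟨i, h1, by omega, rfl⟩)
  · exact Set.toFinite {((false, 3 / 20, 0, 0) : Bool × ℝ × ℤ × ℤ), (false, 1 / 5, 0, -1)}

theorem Cp_pos {M : ℤ} {t : Ty} {e : Bool × ℝ × ℤ × ℤ} (he : e ∈ Cp M t) : 0 < e.2.1 := by
  cases t
  · rcases he with rfl | rfl | rfl | ⟨i, h1, h2, rfl⟩ <;> norm_num
  · rcases he with rfl | rfl | rfl | ⟨i, h1, h2, rfl⟩ <;> norm_num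
  · rcases he with rfl | rfl <;> norm_num

theorem rr_zero : rr 0 = 1 / 20 := by simp [rr]
theorem rr_neg_one : rr (-1) = 0 := by simp [rr]
theorem rr_neg_two : rr (-2) = 1 / 10 := by simp [rr]
theorem cc_zero : cc 0 = 3 / 20 := by simp [cc]
theorem cc_neg_one : cc (-1) = 1 / 5 := by simp [cc]
theorem cc_one : cc 1 = 0 := by simp [cc]
theorem cc_neg_two : cc (-2) = 0 := by simp [cc]

theorem arc_H {w : ℂ} {i j : ℤ} (h1 : i ≤ w.re) (h2 : w.re ≤ i + 1) (h3 : w.im = j) :
    OnArc false (cc j) i j (Phi w) :=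
  ⟨w.re - i, by rw [place_false]; exact Phi_horizontal h1 h2 h3⟩

theorem arc_V {w : ℂ} {i j : ℤ} (h1 : j ≤ w.im) (h2 : w.im ≤ j + 1) (h3 : w.re = i) :
    OnArc true (rr j) i j (Phi w) :=
  ⟨w.im - j, by rw [place_true]; exact Phi_vertical h1 h2 h3⟩

theorem line_H {w : ℂ} {j : ℤ} (hj : cc j = 0) (h3 : w.im = j) : OnLine false j (Phi w) := by
  show (Phi w).im = j
  rw [Phi_im, h3, ch_int, hj]
  ring

theorem line_V {w : ℂ} {i j : ℤ} (hj : rr j = 0) (h1 : j ≤ w.im) (h2 : w.im ≤ j + 1)
    (h3 : w.re = i) : OnLine true i (Phi w) := by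
  show (Phi w).re = i
  rw [Phi_re, h3, sh_eq h1 h2, hj]
  ring

theorem mem_interior_union {S T V : Set ℂ} (hV : IsOpen V) (h : V ⊆ S ∪ T) {w : ℂ} (hw : w ∈ V) :
    w ∈ interior (S ∪ T) := mem_interior.2 ⟨V, h, hV, hw⟩

/-- The boundary of a tile consists of marked edges and straight pieces. -/
theorem boundary {M : ℤ} (hM : 1 < M) (t : Ty) {w : ℂ} (hw : w ∈ U (base M t))
    (hw' : w ∉ interior (U (base M t))) :
    (∃ e ∈ Cp M t, OnArc e.1 e.2.1 e.2.2.1 e.2.2.2 (Phi w)) ∨ ∃ e ∈ Sp M t, OnLine e.1 e.2 (Phi w) := by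
  have hMr : (1 : ℝ) < M := by exact_mod_cast hM
  cases t
  · rw [U_P hM] at hw hw'
    rcases hw with ⟨h1, h2, h3, h4⟩ | ⟨h1, h2, h3, h4⟩
    · push_cast at h1 h2 h3 h4
      rcases h1.eq_or_lt with k1 | k1
      · left
        refine ⟨(true, 1 / 20, 0, 0), Or.inl rfl, ?_⟩
        rw [← rr_zero]
        exact arc_V (by push_cast; linarith) (by push_cast; linarith) (by push_cast; linarith)
      rcases h2.eq_or_lt with k2 | k2
      · left
        refine ⟨(true, 1 / 20, 2 * M, 0), Or.inr (Or.inl rfl), ?_⟩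
        rw [← rr_zero]
        exact arc_V (by push_cast; linarith) (by push_cast; linarith) (by push_cast; linarith)
      rcases h4.eq_or_lt with k4 | k4
      · right
        exact ⟨(false, 1), Or.inl rfl, line_H cc_one (by push_cast; linarith)⟩
      rcases h3.eq_or_lt with k3 | k3
      · -- the lower side
        rcases lt_or_ge w.re 1 with k5 | k5
        · exfalso
          apply hw'
          refine mem_interior_union (isOpen_orect 0 1 (-1) 1) ?_ (w := w) ?_
          · rintro v ⟨v1, v2, v3, v4⟩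
            push_cast at v1 v2 v3 v4
            rcases le_total 0 v.im with hv | hv
            · left
              refine ⟨?_, ?_, ?_, ?_⟩ <;> push_cast <;> linarith
            · right
              refine ⟨?_, ?_, ?_, ?_⟩ <;> push_cast <;> linarith
          · refine ⟨?_, ?_, ?_, ?_⟩ <;> push_cast <;> linarith
        · left
          obtain ⟨i, i1, i2, i3, i4⟩ := exists_cell (a := 1) (b := 2 * M) (by omega) (x := w.re)
            (by push_cast; linarith) (by push_cast; linarith)
          refine ⟨(false, 3 / 20, i, 0), Or.inr (Or.inr (Or.inr ⟨i, i1, i2, rfl⟩)), ?_⟩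
          rw [← cc_zero]
          push_cast at i4
          exact arc_H i3 i4 (by push_cast; linarith)
      · exfalso
        apply hw'
        refine mem_interior_union (isOpen_orect 0 (2 * M) 0 1) ?_ (w := w) ?_
        · intro v hv
          exact Or.inl (orect_subset _ _ _ _ hv)
        · refine ⟨?_, ?_, ?_, ?_⟩ <;> push_cast <;> linarith
    · push_cast at h1 h2 h3 h4
      rcases h1.eq_or_lt with k1 | k1
      · right
        exact ⟨(true, 0), Or.inr (Or.inl rfl), line_V rr_neg_one (by push_cast; linarith)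
          (by push_cast; linarith) (by push_cast; linarith)⟩
      rcases h2.eq_or_lt with k2 | k2
      · right
        exact ⟨(true, 1), Or.inr (Or.inr rfl), line_V rr_neg_one (by push_cast; linarith)
          (by push_cast; linarith) (by push_cast; linarith)⟩
      rcases h3.eq_or_lt with k3 | k3
      · left
        refine ⟨(false, 1 / 5, 0, -1), Or.inr (Or.inr (Or.inl rfl)), ?_⟩
        rw [← cc_neg_one]
        exact arc_H (by push_cast; linarith) (by push_cast; linarith) (by push_cast; linarith)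
      · exfalso
        apply hw'
        refine mem_interior_union (isOpen_orect 0 1 (-1) 1) ?_ (w := w) ?_
        · rintro v ⟨v1, v2, v3, v4⟩
          push_cast at v1 v2 v3 v4
          rcases le_total 0 v.im with hv | hv
          · left
            refine ⟨?_, ?_, ?_, ?_⟩ <;> push_cast <;> linarith
          · right
            refine ⟨?_, ?_, ?_, ?_⟩ <;> push_cast <;> linarith
        · refine ⟨?_, ?_, ?_, ?_⟩ <;> push_cast <;> linarith
  · have hM2 : (M : ℝ) + 1 ≤ 2 * M - 1 := by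
      have : M + 1 ≤ 2 * M - 1 := by omega
      exact_mod_cast this
    rw [U_Q hM] at hw hw'
    have hsub : orect M (M + 1) (-2) 0 ⊆ rect 0 (2 * M - 1) (-2) (-1) ∪ rect M (M + 1) (-1) 0 := by
      rintro v ⟨v1, v2, v3, v4⟩
      push_cast at v1 v2 v3 v4
      rcases le_total (-1) v.im with hv | hv
      · right
        refine ⟨?_, ?_, ?_, ?_⟩ <;> push_cast <;> linarith
      · left
        refine ⟨?_, ?_, ?_, ?_⟩ <;> push_cast <;> linarith
    rcases hw with ⟨h1, h2, h3, h4⟩ | ⟨h1, h2, h3, h4⟩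
    · push_cast at h1 h2 h3 h4
      rcases h1.eq_or_lt with k1 | k1
      · left
        refine ⟨(true, 1 / 10, 0, -2), Or.inl rfl, ?_⟩
        rw [← rr_neg_two]
        exact arc_V (by push_cast; linarith) (by push_cast; linarith) (by push_cast; linarith)
      rcases h2.eq_or_lt with k2 | k2
      · left
        refine ⟨(true, 1 / 10, 2 * M - 1, -2), Or.inr (Or.inl rfl), ?_⟩
        rw [← rr_neg_two]
        exact arc_V (by push_cast; linarith) (by push_cast; linarith) (by push_cast; linarith)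
      rcases h3.eq_or_lt with k3 | k3
      · right
        exact ⟨(false, -2), Or.inl rfl, line_H cc_neg_two (by push_cast; linarith)⟩
      rcases h4.eq_or_lt with k4 | k4
      · left
        obtain ⟨i, i1, i2, i3, i4⟩ := exists_cell (a := 0) (b := 2 * M - 1) (by omega) (x := w.re)
          (by push_cast; linarith) (by push_cast; linarith)
        refine ⟨(false, 1 / 5, i, -1), Or.inr (Or.inr (Or.inr ⟨i, i1, i2, rfl⟩)), ?_⟩
        rw [← cc_neg_one]
        push_cast at i4
        exact arc_H i3 i4 (by push_cast; linarith)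
      · exfalso
        apply hw'
        refine mem_interior_union (isOpen_orect 0 (2 * M - 1) (-2) (-1)) ?_ (w := w) ?_
        · intro v hv
          exact Or.inl (orect_subset _ _ _ _ hv)
        · refine ⟨?_, ?_, ?_, ?_⟩ <;> push_cast <;> linarith
    · push_cast at h1 h2 h3 h4
      rcases h1.eq_or_lt with k1 | k1
      · right
        exact ⟨(true, M), Or.inr (Or.inl rfl), line_V rr_neg_one (by push_cast; linarith)
          (by push_cast; linarith) k1.symm⟩
      rcases h2.eq_or_lt with k2 | k2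
      · right
        exact ⟨(true, M + 1), Or.inr (Or.inr rfl), line_V rr_neg_one (by push_cast; linarith)
          (by push_cast; linarith) (by push_cast; exact k2)⟩
      rcases h4.eq_or_lt with k4 | k4
      · left
        refine ⟨(false, 3 / 20, M, 0), Or.inr (Or.inr (Or.inl rfl)), ?_⟩
        rw [← cc_zero]
        exact arc_H (by push_cast; linarith) (by push_cast; linarith) (by push_cast; linarith)
      · exfalso
        apply hw'
        refine mem_interior_union (isOpen_orect M (M + 1) (-2) 0) hsub (w := w) ?_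
        refine ⟨?_, ?_, ?_, ?_⟩ <;> push_cast <;> linarith
  · rw [U_F] at hw hw'
    obtain ⟨h1, h2, h3, h4⟩ := hw
    push_cast at h1 h2 h3 h4
    rcases h1.eq_or_lt with k1 | k1
    · right
      exact ⟨(true, 0), Or.inl rfl, line_V rr_neg_one (by push_cast; linarith)
        (by push_cast; linarith) (by push_cast; linarith)⟩
    rcases h2.eq_or_lt with k2 | k2
    · right
      exact ⟨(true, 1), Or.inr rfl, line_V rr_neg_one (by push_cast; linarith)
        (by push_cast; linarith) (by push_cast; linarith)⟩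
    rcases h3.eq_or_lt with k3 | k3
    · left
      refine ⟨(false, 1 / 5, 0, -1), Or.inr rfl, ?_⟩
      rw [← cc_neg_one]
      exact arc_H (by push_cast; linarith) (by push_cast; linarith) (by push_cast; linarith)
    rcases h4.eq_or_lt with k4 | k4
    · left
      refine ⟨(false, 3 / 20, 0, 0), Or.inl rfl, ?_⟩
      rw [← cc_zero]
      exact arc_H (by push_cast; linarith) (by push_cast; linarith) (by push_cast; linarith)
    · exfalso
      apply hw'
      apply orect_subset_interior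
      refine ⟨?_, ?_, ?_, ?_⟩ <;> push_cast <;> linarith

end Pool.Agent.V11268.AE
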