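import Mathlib
import Pool.Agent.V11268.AE.A7

set_option autoImplicit false

/-!
# There is no tiling
-/

namespace Pool.Agent.V11268.AE

open Set Metric Topology

open Ty

/-- The family is a tiling by the tiles. -/
structure Tiling (M : ℤ) (𝒯 : Set (Set ℂ)) : Prop where
  tiles : ∀ T ∈ 𝒯, ∃ t, ∃ g : ℂ ≃ᵢ ℂ, g '' tile M t = T
  disj : ∀ T ∈ 𝒯, ∀ T' ∈ 𝒯, T ≠ T' → Disjoint (interior T) (interior T')
  cov : ⋃₀ 𝒯 = univ

theorem place_shift {β : Bool} {i j i' j' : ℤ} {g g' : ℂ ≃ᵢ ℂ}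
    (h : ∀ z, g' (place β i' j' z) = g (place β i j z)) (y : ℂ) :
    g' y = g (y + vec (i - i') (j - j')) := by
  cases β
  · have := h (y - vec i' j')
    rw [place_false, place_false, sub_add_cancel] at this
    rw [this]
    congr 1
    apply Complex.ext <;> simp <;> ring
  · have := h ⟨(y - vec i' j').im, (y - vec i' j').re⟩
    rw [place_true, place_true] at this
    have e1 : (⟨(y - vec i' j').re, (y - vec i' j').im⟩ : ℂ) + vec i' j' = y := by
      apply Complex.ext <;> simp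
    have e2 : (⟨(y - vec i' j').re, (y - vec i' j').im⟩ : ℂ) + vec i j =
        y + vec (i - i') (j - j') := by
      apply Complex.ext <;> simp <;> ring
    simp only at this
    rw [e1, e2] at this
    exact this

/-- A marked arc which meets the boundary of a tile in infinitely many points is a marked edge of
this tile. -/
theorem arc_match {M : ℤ} (hM : 1 < M) {t' : Ty} {g g' : ℂ ≃ᵢ ℂ} {β : Bool} {c : ℝ} {i j : ℤ}
    (hc : 0 < c) {S : Set ℝ} (hSinf : S.Infinite)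
    (hS : ∀ s ∈ S, g (place β i j (gam c s)) ∈ g' '' tile M t' ∧
      g (place β i j (gam c s)) ∉ interior (g' '' tile M t')) :
    ∃ β' i' j', (β', c, i', j') ∈ Cp M t' ∧ ∀ z, g' (place β' i' j' z) = g (place β i j z) := by
  set φ : ℝ → ℂ := fun s => g (place β i j (gam c s)) with hφ
  have hcase : ∀ s ∈ S, (∃ e ∈ Cp M t', OnArc e.1 e.2.1 e.2.2.1 e.2.2.2 (g'.symm (φ s))) ∨
      ∃ e ∈ Sp M t', OnLine e.1 e.2 (g'.symm (φ s)) := by
    intro s hs
    obtain ⟨⟨_, ⟨w, hw, rfl⟩, hw2⟩, hsi⟩ := hS s hs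
    have hw3 : g' (Phi w) = φ s := hw2
    rw [← hw3, g'.symm_apply_apply]
    apply boundary hM t' hw
    intro hwi
    apply hsi
    rw [interior_image_tile, ← hw2]
    exact ⟨_, ⟨w, hwi, rfl⟩, rfl⟩
  have hcov : S ⊆ (⋃ e ∈ Cp M t', {s | OnArc e.1 e.2.1 e.2.2.1 e.2.2.2 (g'.symm (φ s))}) ∪
      ⋃ e ∈ Sp M t', {s | OnLine e.1 e.2 (g'.symm (φ s))} := by
    intro s hs
    rcases hcase s hs with ⟨e, he, h⟩ | ⟨e, he, h⟩
    · left
      simp only [mem_iUnion, exists_prop]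
      exact ⟨e, he, h⟩
    · right
      simp only [mem_iUnion, exists_prop]
      exact ⟨e, he, h⟩
  have hline : ∀ e ∈ Sp M t', {s | OnLine e.1 e.2 (g'.symm (φ s))}.Finite := by
    rintro ⟨b, k⟩ _
    by_contra hinf'
    cases b
    · exact not_line_im (h := ((place β i j).trans g).trans g'.symm) (c := c) (k := k) hc hinf'
        (fun s hs => hs)
    · exact not_line_re (h := ((place β i j).trans g).trans g'.symm) (c := c) (k := k) hc hinf'
        (fun s hs => hs)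
  have harc : ∃ e ∈ Cp M t', {s | OnArc e.1 e.2.1 e.2.2.1 e.2.2.2 (g'.symm (φ s))}.Infinite := by
    by_contra hcon
    push Not at hcon
    exact hSinf ((((Cp_finite M t').biUnion hcon).union
      ((Sp_finite M t').biUnion hline)).subset hcov)
  obtain ⟨⟨β', c', i', j'⟩, he, hinf'⟩ := harc
  obtain ⟨hcc, hid⟩ := rigid (h := ((place β i j).trans g).trans
    (g'.symm.trans (place β' i' j').symm)) hc (Cp_pos he) hinf' (by
      rintro s ⟨s', hs'⟩
      have : (((place β i j).trans g).trans (g'.symm.trans (place β' i' j').symm)) (gam c s) =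
          gam c' s' := by
        show (place β' i' j').symm (g'.symm (φ s)) = _
        rw [hs']
        exact (place β' i' j').symm_apply_apply _
      rw [this]
      rfl)
  simp only at hcc
  refine ⟨β', i', j', ?_, ?_⟩
  · rw [hcc]; exact he
  · intro z
    have h1 : (place β' i' j').symm (g'.symm (g (place β i j z))) = z := hid z
    have h2 := congrArg (fun y => g' (place β' i' j' y)) h1
    simp only [IsometryEquiv.apply_symm_apply] at h2
    exact h2.symm

theorem main_nb {M : ℤ} (hM : 1 < M) {𝒯 : Set (Set ℂ)} (h𝒯 : Tiling M 𝒯) {t : Ty} {g : ℂ ≃ᵢ ℂ}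
    (hg : g '' tile M t ∈ 𝒯) {β : Bool} {c : ℝ} {i j : ℤ} (hc : 0 < c)
    (hu : ∀ s ∈ Icc (0 : ℝ) 1, place β i j (gam c s) ∈ tile M t ∧
      place β i j (gam c s) ∉ interior (tile M t)) :
    ∃ (t' : Ty) (g' : ℂ ≃ᵢ ℂ), g' '' tile M t' ∈ 𝒯 ∧ g' '' tile M t' ≠ g '' tile M t ∧
      ∃ β' i' j', (β', c, i', j') ∈ Cp M t' ∧ ∀ z, g' (place β' i' j' z) = g (place β i j z) := by
  obtain ⟨r, D, hr, hrD⟩ := exists_r_D hM
  set φ : ℝ → ℂ := fun s => g (place β i j (gam c s)) with hφ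
  have hφinj : Function.Injective φ := by
    intro s s' h
    have := (place β i j).injective (g.injective h)
    have := congrArg Complex.re this
    simpa using this
  have hφT : ∀ s ∈ Icc (0 : ℝ) 1, φ s ∈ g '' tile M t := fun s hs => ⟨_, (hu s hs).1, rfl⟩
  have hint : interior (g '' tile M t) = g '' interior (tile M t) :=
    (g.toHomeomorph.image_interior _).symm
  obtain ⟨T', hT', hne, hinf⟩ := neighbour (T := g '' tile M t) (Γ := φ '' Icc 0 1) hr
    (D := D) (𝒯 := 𝒯) (by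
      intro T hT
      obtain ⟨t, g, rfl⟩ := h𝒯.tiles T hT
      exact hrD t g) h𝒯.disj (by
      intro T hT
      obtain ⟨t, g, rfl⟩ := h𝒯.tiles T hT
      exact ((isCompact_tile hM t).image g.continuous).isClosed) h𝒯.cov
    ((Icc_infinite zero_lt_one).image hφinj.injOn)
    (((isCompact_tile hM t).image g.continuous).isBounded.subset (by
      rintro _ ⟨s, hs, rfl⟩
      exact hφT s hs))
    (by
      rintro _ ⟨s, hs, rfl⟩ hs'
      rw [hint] at hs'
      obtain ⟨w, hw, hw'⟩ := hs'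
      have : w = place β i j (gam c s) := g.injective hw'
      rw [this] at hw
      exact (hu s hs).2 hw)
  obtain ⟨t', g', hg'⟩ := h𝒯.tiles T' hT'
  subst hg'
  refine ⟨t', g', hT', hne, ?_⟩
  refine arc_match hM hc (S := {s | s ∈ Icc (0 : ℝ) 1 ∧ φ s ∈ g' '' tile M t'}) ?_ ?_
  · intro hfin
    refine hinf ((hfin.image φ).subset ?_)
    rintro _ ⟨⟨s, hs, rfl⟩, hs'⟩
    exact ⟨s, ⟨hs, hs'⟩, rfl⟩
  · rintro s ⟨hs, hs'⟩
    refine ⟨hs', fun h1 => ?_⟩
    have h2 : φ s ∈ closure (interior (g '' tile M t)) := closure_interior_tile M t g (hφT s hs)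
    have h3 := mem_closure_iff.1 h2 _ isOpen_interior h1
    obtain ⟨y, hy1, hy2⟩ := h3
    exact Set.disjoint_left.1 (h𝒯.disj _ hT' _ hg hne) hy1 hy2

/-! ### The edges which are used -/

theorem mem_tile_iff {M : ℤ} {t : Ty} {w : ℂ} : Phi w ∈ tile M t ↔ w ∈ U (base M t) :=
  Phi.injective.mem_set_image

theorem mem_interior_tile_iff {M : ℤ} {t : Ty} {w : ℂ} :
    Phi w ∈ interior (tile M t) ↔ w ∈ interior (U (base M t)) := by
  rw [tile, ← Phi.image_interior]
  exact Phi.injective.mem_set_image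

theorem place_V {i j : ℤ} {s : ℝ} (h0 : 0 ≤ s) (h1 : s ≤ 1) :
    place true i j (gam (rr j) s) = Phi ⟨i, j + s⟩ := by
  rw [Phi_vertical (i := i) (j := j) (z := ⟨i, j + s⟩) (by simp only; linarith)
    (by simp only; linarith) rfl, place_true]
  simp only [add_sub_cancel_left]

theorem place_H {i j : ℤ} {s : ℝ} (h0 : 0 ≤ s) (h1 : s ≤ 1) :
    place false i j (gam (cc j) s) = Phi ⟨i + s, j⟩ := by
  rw [Phi_horizontal (i := i) (j := j) (z := ⟨i + s, j⟩) (by simp only; linarith)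
    (by simp only; linarith) rfl, place_false]
  simp only [add_sub_cancel_left]

theorem not_interior_re {S : Set ℂ} {k : ℝ} (h : ∀ z ∈ S, z.re ≤ k) {w : ℂ} (hw : w.re = k) :
    w ∉ interior S := by
  intro hws
  have h1 : interior S ⊆ interior {z : ℂ | z.re ≤ k} := interior_mono h
  rw [Complex.interior_setOfPred_re_le] at h1
  have := h1 hws
  simp only [mem_ofPred_eq] at this
  linarith

theorem not_interior_im {S : Set ℂ} {k : ℝ} (h : ∀ z ∈ S, z.im ≤ k) {w : ℂ} (hw : w.im = k) :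
    w ∉ interior S := by
  intro hws
  have h1 : interior S ⊆ interior {z : ℂ | z.im ≤ k} := interior_mono h
  rw [Complex.interior_setOfPred_im_le] at h1
  have := h1 hws
  simp only [mem_ofPred_eq] at this
  linarith

theorem not_interior_im' {S : Set ℂ} {k : ℝ} (h : ∀ z ∈ S, k ≤ z.im) {w : ℂ} (hw : w.im = k) :
    w ∉ interior S := by
  intro hws
  have h1 : interior S ⊆ interior {z : ℂ | k ≤ z.im} := interior_mono h
  rw [Complex.interior_setOfPred_le_im] at h1
  have := h1 hws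
  simp only [mem_ofPred_eq] at this
  linarith

theorem bounds_P {M : ℤ} (hM : 1 < M) {z : ℂ} (hz : z ∈ U (base M P)) :
    z.re ≤ 2 * M ∧ -1 ≤ z.im := by
  have hMr : (1 : ℝ) < M := by exact_mod_cast hM
  rw [U_P hM] at hz
  rcases hz with ⟨h1, h2, h3, h4⟩ | ⟨h1, h2, h3, h4⟩ <;> push_cast at h1 h2 h3 h4 <;>
    constructor <;> linarith

theorem bounds_Q {M : ℤ} (hM : 1 < M) {z : ℂ} (hz : z ∈ U (base M Q)) :
    z.re ≤ 2 * M - 1 ∧ z.im ≤ 0 := by
  have hM2 : (M : ℝ) + 1 ≤ 2 * M - 1 := by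
    have : M + 1 ≤ 2 * M - 1 := by omega
    exact_mod_cast this
  rw [U_Q hM] at hz
  rcases hz with ⟨h1, h2, h3, h4⟩ | ⟨h1, h2, h3, h4⟩ <;> push_cast at h1 h2 h3 h4 <;>
    constructor <;> linarith

theorem used_P1 {M : ℤ} (hM : 1 < M) {s : ℝ} (hs : s ∈ Icc (0 : ℝ) 1) :
    place true (2 * M) 0 (gam (1 / 20) s) ∈ tile M P ∧
      place true (2 * M) 0 (gam (1 / 20) s) ∉ interior (tile M P) := by
  have hMr : (1 : ℝ) < M := by exact_mod_cast hM
  rw [← rr_zero, place_V hs.1 hs.2, mem_tile_iff, mem_interior_tile_iff]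
  constructor
  · rw [U_P hM]
    left
    refine ⟨?_, ?_, ?_, ?_⟩ <;> push_cast <;> linarith [hs.1, hs.2]
  · exact not_interior_re (fun z hz => (bounds_P hM hz).1) (by push_cast; rfl)

theorem used_P2 {M : ℤ} (hM : 1 < M) {s : ℝ} (hs : s ∈ Icc (0 : ℝ) 1) :
    place false 0 (-1) (gam (1 / 5) s) ∈ tile M P ∧
      place false 0 (-1) (gam (1 / 5) s) ∉ interior (tile M P) := by
  rw [← cc_neg_one, place_H hs.1 hs.2, mem_tile_iff, mem_interior_tile_iff]
  constructor
  · rw [U_P hM]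
    right
    refine ⟨?_, ?_, ?_, ?_⟩ <;> push_cast <;> linarith [hs.1, hs.2]
  · exact not_interior_im' (fun z hz => (bounds_P hM hz).2) (by push_cast; rfl)

theorem used_Q1 {M : ℤ} (hM : 1 < M) {s : ℝ} (hs : s ∈ Icc (0 : ℝ) 1) :
    place true (2 * M - 1) (-2) (gam (1 / 10) s) ∈ tile M Q ∧
      place true (2 * M - 1) (-2) (gam (1 / 10) s) ∉ interior (tile M Q) := by
  have hMr : (1 : ℝ) < M := by exact_mod_cast hM
  rw [← rr_neg_two, place_V hs.1 hs.2, mem_tile_iff, mem_interior_tile_iff]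
  constructor
  · rw [U_Q hM]
    left
    refine ⟨?_, ?_, ?_, ?_⟩ <;> push_cast <;> linarith [hs.1, hs.2]
  · exact not_interior_re (fun z hz => (bounds_Q hM hz).1) (by push_cast; rfl)

theorem used_Q2 {M : ℤ} (hM : 1 < M) {s : ℝ} (hs : s ∈ Icc (0 : ℝ) 1) :
    place false M 0 (gam (3 / 20) s) ∈ tile M Q ∧
      place false M 0 (gam (3 / 20) s) ∉ interior (tile M Q) := by
  rw [← cc_zero, place_H hs.1 hs.2, mem_tile_iff, mem_interior_tile_iff]
  constructor
  · rw [U_Q hM]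
    right
    refine ⟨?_, ?_, ?_, ?_⟩ <;> push_cast <;> linarith [hs.1, hs.2]
  · exact not_interior_im (fun z hz => (bounds_Q hM hz).2) (by push_cast; rfl)

theorem used_F {M : ℤ} {s : ℝ} (hs : s ∈ Icc (0 : ℝ) 1) :
    place false 0 0 (gam (3 / 20) s) ∈ tile M F ∧
      place false 0 0 (gam (3 / 20) s) ∉ interior (tile M F) := by
  rw [← cc_zero, place_H hs.1 hs.2, mem_tile_iff, mem_interior_tile_iff]
  constructor
  · rw [U_F]
    refine ⟨?_, ?_, ?_, ?_⟩ <;> push_cast <;> linarith [hs.1, hs.2]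
  · refine not_interior_im (k := 0) (fun z hz => ?_) (by push_cast; rfl)
    rw [U_F] at hz
    have := hz.2.2.2
    push_cast at this
    exact this

/-- A tile is not congruent to a tile without a mark of the same size. -/
theorem noncong_aux {M : ℤ} (hM : 1 < M) {t t' : Ty} {β : Bool} {c : ℝ} {i j : ℤ} (hc : 0 < c)
    (hu : ∀ s ∈ Icc (0 : ℝ) 1, place β i j (gam c s) ∈ tile M t ∧
      place β i j (gam c s) ∉ interior (tile M t))
    (hC : ∀ β' i' j', (β', c, i', j') ∉ Cp M t') (g : ℂ ≃ᵢ ℂ) : g '' tile M t ≠ tile M t' := by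
  intro he
  have hint : interior (g '' tile M t) = g '' interior (tile M t) :=
    (g.toHomeomorph.image_interior _).symm
  have hid : (IsometryEquiv.refl ℂ) '' tile M t' = g '' tile M t := by
    rw [he]; exact image_id _
  obtain ⟨β', i', j', h1, -⟩ := arc_match hM (t' := t') (g := g) (g' := IsometryEquiv.refl ℂ)
    (β := β) (i := i) (j := j) hc (Icc_infinite (zero_lt_one (α := ℝ))) (by
      intro s hs
      rw [hid, hint]
      refine ⟨⟨_, (hu s hs).1, rfl⟩, ?_⟩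
      rintro ⟨w, hw, hw'⟩
      rw [g.injective hw'] at hw
      exact (hu s hs).2 hw)
  exact hC β' i' j' h1

/-- The three tiles are pairwise non-congruent. -/
theorem noncong {M : ℤ} (hM : 1 < M) {t t' : Ty} (hne : t ≠ t') (g : ℂ ≃ᵢ ℂ) :
    g '' tile M t ≠ tile M t' := by
  have hPQ : ∀ g : ℂ ≃ᵢ ℂ, g '' tile M P ≠ tile M Q := by
    refine noncong_aux hM (by norm_num : (0 : ℝ) < 1 / 20) (fun s hs => used_P1 hM hs) ?_
    intro β' i' j' hC
    rcases hC with h | h | h | ⟨k, k1, k2, h⟩ <;> norm_num at h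
  have hPF : ∀ g : ℂ ≃ᵢ ℂ, g '' tile M P ≠ tile M F := by
    refine noncong_aux hM (by norm_num : (0 : ℝ) < 1 / 20) (fun s hs => used_P1 hM hs) ?_
    intro β' i' j' hC
    rcases hC with h | h <;> norm_num at h
  have hQF : ∀ g : ℂ ≃ᵢ ℂ, g '' tile M Q ≠ tile M F := by
    refine noncong_aux hM (by norm_num : (0 : ℝ) < 1 / 10) (fun s hs => used_Q1 hM hs) ?_
    intro β' i' j' hC
    rcases hC with h | h <;> norm_num at h
  have hsymm : ∀ t t' : Ty, (∀ g : ℂ ≃ᵢ ℂ, g '' tile M t ≠ tile M t') →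
      ∀ g : ℂ ≃ᵢ ℂ, g '' tile M t' ≠ tile M t := by
    intro t t' h g he
    apply h g.symm
    rw [← he, ← image_comp]
    have : (g.symm : ℂ → ℂ) ∘ g = id := by
      funext z; simp
    rw [this, image_id]
  cases t <;> cases t'
  · exact absurd rfl hne
  · exact hPQ g
  · exact hPF g
  · exact hsymm _ _ hPQ g
  · exact absurd rfl hne
  · exact hQF g
  · exact hsymm _ _ hPF g
  · exact hsymm _ _ hQF g
  · exact absurd rfl hne

/-- Two tiles with a common cell overlap. -/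
theorem overlap {M : ℤ} {t t' : Ty} {g g' : ℂ ≃ᵢ ℂ} {a : ℤ} (h : ∀ y, g' y = g (y + vec a 0))
    {p : ℤ × ℤ} (hp : p ∈ base M t) (hp' : (p.1 - a, p.2) ∈ base M t') :
    ¬ Disjoint (interior (g '' tile M t)) (interior (g' '' tile M t')) := by
  intro hd
  rw [interior_image_tile, interior_image_tile] at hd
  refine Set.disjoint_left.1 hd ⟨_, ⟨_, center_mem_interior hp, rfl⟩, rfl⟩
    ⟨_, ⟨_, center_mem_interior hp', rfl⟩, ?_⟩
  rw [h]
  have : vec a 0 = vec a (3 * 0) := rfl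
  rw [this, ← Phi_add]
  congr 2
  apply Complex.ext
  · simp
    ring
  · simp

/-! ### The rules -/

variable {M : ℤ} {𝒯 : Set (Set ℂ)}

theorem rule_PP (hM : 1 < M) (h𝒯 : Tiling M 𝒯) {g : ℂ ≃ᵢ ℂ} (hg : g '' tile M P ∈ 𝒯) :
    ∃ g' : ℂ ≃ᵢ ℂ, (∀ y, g' y = g (y + vec (2 * M) 0)) ∧ g' '' tile M P ∈ 𝒯 := by
  obtain ⟨t', g', hT', hne, β', i', j', hC, heq⟩ :=
    main_nb hM h𝒯 hg (by norm_num : (0 : ℝ) < 1 / 20) (fun s hs => used_P1 hM hs)
  cases t'
  · rcases hC with h | h | h | ⟨k, k1, k2, h⟩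
    · simp only [Prod.mk.injEq] at h
      obtain ⟨rfl, -, rfl, rfl⟩ := h
      refine ⟨g', fun y => ?_, hT'⟩
      rw [place_shift heq y, sub_zero, sub_zero]
    · exfalso
      simp only [Prod.mk.injEq] at h
      obtain ⟨rfl, -, rfl, rfl⟩ := h
      apply hne
      have : ∀ y, g' y = g y := by
        intro y
        rw [place_shift heq y]
        congr 1
        apply Complex.ext <;> simp
      exact image_congr fun y _ => this y
    · exfalso; norm_num at h
    · exfalso; norm_num at h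
  · exfalso
    rcases hC with h | h | h | ⟨k, k1, k2, h⟩ <;> norm_num at h
  · exfalso
    rcases hC with h | h <;> norm_num at h

theorem rule_QQ (hM : 1 < M) (h𝒯 : Tiling M 𝒯) {g : ℂ ≃ᵢ ℂ} (hg : g '' tile M Q ∈ 𝒯) :
    ∃ g' : ℂ ≃ᵢ ℂ, (∀ y, g' y = g (y + vec (2 * M - 1) 0)) ∧ g' '' tile M Q ∈ 𝒯 := by
  obtain ⟨t', g', hT', hne, β', i', j', hC, heq⟩ :=
    main_nb hM h𝒯 hg (by norm_num : (0 : ℝ) < 1 / 10) (fun s hs => used_Q1 hM hs)
  cases t'
  · exfalso
    rcases hC with h | h | h | ⟨k, k1, k2, h⟩ <;> norm_num at h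
  · rcases hC with h | h | h | ⟨k, k1, k2, h⟩
    · simp only [Prod.mk.injEq] at h
      obtain ⟨rfl, -, rfl, rfl⟩ := h
      refine ⟨g', fun y => ?_, hT'⟩
      rw [place_shift heq y, sub_zero, sub_self]
    · exfalso
      simp only [Prod.mk.injEq] at h
      obtain ⟨rfl, -, rfl, rfl⟩ := h
      apply hne
      have : ∀ y, g' y = g y := by
        intro y
        rw [place_shift heq y]
        congr 1
        apply Complex.ext <;> simp
      exact image_congr fun y _ => this y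
    · exfalso; norm_num at h
    · exfalso; norm_num at h
  · exfalso
    rcases hC with h | h <;> norm_num at h

theorem rule_PQ (hM : 1 < M) (h𝒯 : Tiling M 𝒯) {g : ℂ ≃ᵢ ℂ} (hg : g '' tile M P ∈ 𝒯) :
    ∃ (g' : ℂ ≃ᵢ ℂ) (a : ℤ), (∀ y, g' y = g (y + vec a 0)) ∧ g' '' tile M Q ∈ 𝒯 := by
  obtain ⟨t', g', hT', hne, β', i', j', hC, heq⟩ :=
    main_nb hM h𝒯 hg (by norm_num : (0 : ℝ) < 1 / 5) (fun s hs => used_P2 hM hs)
  cases t'
  · exfalso
    rcases hC with h | h | h | ⟨k, k1, k2, h⟩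
    · norm_num at h
    · norm_num at h
    · simp only [Prod.mk.injEq] at h
      obtain ⟨rfl, -, rfl, rfl⟩ := h
      apply hne
      have : ∀ y, g' y = g y := by
        intro y
        rw [place_shift heq y]
        congr 1
        apply Complex.ext <;> simp
      exact image_congr fun y _ => this y
    · norm_num at h
  · rcases hC with h | h | h | ⟨k, k1, k2, h⟩
    · norm_num at h
    · norm_num at h
    · norm_num at h
    · simp only [Prod.mk.injEq] at h
      obtain ⟨rfl, -, rfl, rfl⟩ := h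
      refine ⟨g', 0 - i', fun y => ?_, hT'⟩
      rw [place_shift heq y, sub_self]
  · exfalso
    rcases hC with h | h
    · norm_num at h
    · simp only [Prod.mk.injEq] at h
      obtain ⟨rfl, -, rfl, rfl⟩ := h
      have h1 : ∀ y, g' y = g (y + vec 0 0) := by
        intro y
        rw [place_shift heq y, sub_self, sub_self]
      exact overlap (M := M) (t := P) (t' := F) h1 (p := (0, -1)) (Or.inr ⟨rfl, rfl⟩) ⟨rfl, rfl⟩
        (h𝒯.disj _ hg _ hT' (Ne.symm hne))

theorem rule_QP (hM : 1 < M) (h𝒯 : Tiling M 𝒯) {g : ℂ ≃ᵢ ℂ} (hg : g '' tile M Q ∈ 𝒯) :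
    ∃ g' : ℂ ≃ᵢ ℂ, g' '' tile M P ∈ 𝒯 := by
  obtain ⟨t', g', hT', hne, β', i', j', hC, heq⟩ :=
    main_nb hM h𝒯 hg (by norm_num : (0 : ℝ) < 3 / 20) (fun s hs => used_Q2 hM hs)
  cases t'
  · exact ⟨g', hT'⟩
  · exfalso
    rcases hC with h | h | h | ⟨k, k1, k2, h⟩
    · norm_num at h
    · norm_num at h
    · simp only [Prod.mk.injEq] at h
      obtain ⟨rfl, -, rfl, rfl⟩ := h
      apply hne
      have : ∀ y, g' y = g y := by
        intro y
        rw [place_shift heq y]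
        congr 1
        apply Complex.ext <;> simp
      exact image_congr fun y _ => this y
    · norm_num at h
  · exfalso
    rcases hC with h | h
    · simp only [Prod.mk.injEq] at h
      obtain ⟨rfl, -, rfl, rfl⟩ := h
      have h1 : ∀ y, g' y = g (y + vec M 0) := by
        intro y
        rw [place_shift heq y, sub_zero, sub_self]
      exact overlap (M := M) (t := Q) (t' := F) h1 (p := (M, -1)) (Or.inr ⟨rfl, rfl⟩)
        ⟨by simp, rfl⟩ (h𝒯.disj _ hg _ hT' (Ne.symm hne))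
    · norm_num at h

theorem rule_FP (hM : 1 < M) (h𝒯 : Tiling M 𝒯) {g : ℂ ≃ᵢ ℂ} (hg : g '' tile M F ∈ 𝒯) :
    ∃ g' : ℂ ≃ᵢ ℂ, g' '' tile M P ∈ 𝒯 := by
  obtain ⟨t', g', hT', hne, β', i', j', hC, heq⟩ :=
    main_nb hM h𝒯 hg (by norm_num : (0 : ℝ) < 3 / 20) (fun s hs => used_F hs)
  cases t'
  · exact ⟨g', hT'⟩
  · exfalso
    rcases hC with h | h | h | ⟨k, k1, k2, h⟩
    · norm_num at h
    · norm_num at h
    · simp only [Prod.mk.injEq] at h
      obtain ⟨rfl, -, hi', rfl⟩ := h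
      rw [hi'] at heq
      have h1 : ∀ y, g' y = g (y + vec (-M) 0) := by
        intro y
        rw [place_shift heq y, zero_sub, sub_self]
      exact overlap (M := M) (t := F) (t' := Q) h1 (p := (0, -1)) ⟨rfl, rfl⟩
        (Or.inr ⟨by simp, rfl⟩) (h𝒯.disj _ hg _ hT' (Ne.symm hne))
    · norm_num at h
  · exfalso
    rcases hC with h | h
    · simp only [Prod.mk.injEq] at h
      obtain ⟨rfl, -, rfl, rfl⟩ := h
      apply hne
      have : ∀ y, g' y = g y := by
        intro y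
        rw [place_shift heq y]
        congr 1
        apply Complex.ext <;> simp
      exact image_congr fun y _ => this y
    · norm_num at h

theorem iterate {t : Ty} {N : ℤ}
    (h : ∀ g : ℂ ≃ᵢ ℂ, g '' tile M t ∈ 𝒯 → ∃ g' : ℂ ≃ᵢ ℂ, (∀ y, g' y = g (y + vec N 0)) ∧
      g' '' tile M t ∈ 𝒯) {g : ℂ ≃ᵢ ℂ} (hg : g '' tile M t ∈ 𝒯) (n : ℕ) :
    ∃ g' : ℂ ≃ᵢ ℂ, (∀ y, g' y = g (y + vec (n * N) 0)) ∧ g' '' tile M t ∈ 𝒯 := by
  induction n with
  | zero =>
    refine ⟨g, fun y => ?_, hg⟩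
    congr 1
    apply Complex.ext <;> simp
  | succ n ih =>
    obtain ⟨g', h1, h2⟩ := ih
    obtain ⟨g'', h3, h4⟩ := h g' h2
    refine ⟨g'', fun y => ?_, h4⟩
    rw [h3, h1]
    congr 1
    apply Complex.ext
    · simp; ring
    · simp

/-- There is no tiling. -/
theorem no_tiling (hM : 1 < M) : ¬ Tiling M 𝒯 := by
  intro h𝒯
  obtain ⟨g, hg⟩ : ∃ g : ℂ ≃ᵢ ℂ, g '' tile M P ∈ 𝒯 := by
    have h0 : (0 : ℂ) ∈ ⋃₀ 𝒯 := by rw [h𝒯.cov]; trivial
    obtain ⟨T, hT, -⟩ := h0
    obtain ⟨t, g, rfl⟩ := h𝒯.tiles T hT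
    cases t
    · exact ⟨g, hT⟩
    · exact rule_QP hM h𝒯 hT
    · exact rule_FP hM h𝒯 hT
  obtain ⟨g1, a, hg1, hT1⟩ := rule_PQ hM h𝒯 hg
  set D : ℤ := a + M with hD
  have hA : 0 ≤ D + (2 * M - 1) * |D| := by
    have h1 := neg_abs_le D
    have h2 : 1 * |D| ≤ (2 * M - 1) * |D| := mul_le_mul_of_nonneg_right (by omega) (abs_nonneg _)
    linarith
  have hB : 0 ≤ D + (2 * M) * |D| := by
    have h1 := neg_abs_le D
    have h2 : 1 * |D| ≤ (2 * M) * |D| := mul_le_mul_of_nonneg_right (by omega) (abs_nonneg _)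
    linarith
  obtain ⟨A, hA'⟩ := Int.eq_ofNat_of_zero_le hA
  obtain ⟨B, hB'⟩ := Int.eq_ofNat_of_zero_le hB
  obtain ⟨gP, hgP, hTP⟩ := iterate (fun g hg => rule_PP hM h𝒯 hg) hg A
  obtain ⟨gQ, hgQ, hTQ⟩ := iterate (fun g hg => rule_QQ hM h𝒯 hg) hT1 B
  have key : (A : ℤ) * (2 * M) = a + B * (2 * M - 1) + M := by
    rw [← hA', ← hB', hD]; ring
  have hrel : ∀ y, gQ y = gP (y + vec (-M) 0) := by
    intro y
    rw [hgQ, hg1, hgP]
    congr 1
    have key' : ((A : ℤ) : ℝ) * (2 * M) = a + ((B : ℤ) : ℝ) * (2 * M - 1) + M := by exact_mod_cast key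
    apply Complex.ext
    · simp at key' ⊢
      linarith
    · simp
  have hne : gP '' tile M P ≠ gQ '' tile M Q := by
    intro he
    have h1 : gP (Phi ⟨1 / 2, 1 / 2⟩) ∈ gP '' tile M P := by
      refine ⟨_, mem_tile_iff.2 ?_, rfl⟩
      rw [U_P hM]
      have hMr : (1 : ℝ) < M := by exact_mod_cast hM
      left
      refine ⟨?_, ?_, ?_, ?_⟩ <;> push_cast <;> linarith
    rw [he] at h1
    obtain ⟨_, ⟨w, hw, rfl⟩, hw'⟩ := h1
    rw [hrel] at hw'
    have h2 := gP.injective hw'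
    have h3 : vec (-M) 0 = vec (-M) (3 * 0) := rfl
    rw [h3, ← Phi_add] at h2
    have h4 := congrArg Complex.im (Phi.injective h2)
    have h5 := (bounds_Q hM hw).2
    simp at h4
    rw [h4] at h5
    norm_num at h5
  exact overlap (M := M) (t := P) (t' := Q) hrel (p := (0, -1)) (Or.inr ⟨rfl, rfl⟩)
    (Or.inr ⟨by simp, rfl⟩) (h𝒯.disj _ hTP _ hTQ hne)

end Pool.Agent.V11268.AE
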